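import Pool.Agent.Lib.MP_2b97da_lc.Cfp

/-! Working predicates for the proof. -/

namespace Pool.Agent.Lib.MP_2b97da_lc

open Cardinal Ordinal Set Order

universe u

variable {K : Type u}

/-- a point-finite family of `s` members of `D` -/
def Rg (D : Filter K) (s : Cardinal.{u}) : Prop :=
  ∃ (T : Type u) (A : T → Set K), #T = s ∧ (∀ t, A t ∈ D) ∧ ∀ i, {t | i ∈ A t}.Finite

/-- no point-finite family of `th` positive sets -/
def NoPF (D : Filter K) (th : Cardinal.{u}) : Prop :=
  ∀ (T : Type u) (P : T → Set K), #T = th → (∀ t, (P t)ᶜ ∉ D) → ¬ ∀ i, {t | i ∈ P t}.Finite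

/-- `s` is closed under powers below `th` -/
def Cl (th s : Cardinal.{u}) : Prop := ∀ r < th, s ^ r ≤ s

end Pool.Agent.Lib.MP_2b97da_lc
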