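import Mathlib

/-! Pointwise cofinality of products of ordinals, directedness modulo small sets, long chains. -/

namespace Pool.Agent.Lib.MP_2b97da_lc

open Cardinal Ordinal Set Order

universe u

/-- the ordinal named by a point of `o.ToType` -/
noncomputable def val {o : Ordinal.{u}} (t : o.ToType) : Ordinal.{u} := (Ordinal.ToType.toOrd t).1

theorem val_lt {o : Ordinal.{u}} (t : o.ToType) : val t < o := (Ordinal.ToType.toOrd t).2

theorem exists_val {o a : Ordinal.{u}} (h : a < o) : ∃ t : o.ToType, val t = a :=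
  ⟨Ordinal.ToType.mk ⟨a, h⟩, by simp [val, Ordinal.ToType.toOrd]⟩

theorem val_lt_val {o : Ordinal.{u}} {s t : o.ToType} : val s < val t ↔ s < t := by
  simp [val, Ordinal.ToType.toOrd]

theorem val_le_val {o : Ordinal.{u}} {s t : o.ToType} : val s ≤ val t ↔ s ≤ t := by
  simp [val, Ordinal.ToType.toOrd]

theorem val_inj {o : Ordinal.{u}} {s t : o.ToType} (h : val s = val t) : s = t :=
  le_antisymm (val_le_val.1 h.le) (val_le_val.1 h.ge)

/-- a cofinal family in `o` indexed by any type of size at least `cof o` -/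
theorem exists_cofinal (o : Ordinal.{u}) (T : Type u) (h : o.cof ≤ #T) :
    ∃ e : T → Ordinal.{u}, ∀ a < o, ∃ t, a ≤ e t ∧ e t < o := by
  obtain ⟨s, hs, hc⟩ := Order.exists_cof_eq o.ToType
  rw [cof_toType] at hc
  obtain ⟨j⟩ : Nonempty (s ↪ T) := by rw [← Cardinal.le_def, hc]; exact h
  classical
  refine ⟨fun t => if ht : ∃ x : s, j x = t then val (ht.choose : o.ToType) else 0, fun a ha => ?_⟩
  obtain ⟨x, rfl⟩ := exists_val ha
  obtain ⟨y, hy, hxy⟩ := hs x
  have ht : ∃ z : s, j z = j ⟨y, hy⟩ := ⟨_, rfl⟩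
  have e : ht.choose = ⟨y, hy⟩ := j.injective ht.choose_spec
  refine ⟨j ⟨y, hy⟩, ?_, ?_⟩
  · simp only [dif_pos ht, e]; exact val_le_val.2 hxy
  · simp only [dif_pos ht]; exact val_lt _

variable {I : Type u}

/-- `k` bounds `h` below `g` on `X` -/
def Apx (g : I → Ordinal.{u}) (X : Set I) (h k : I → Ordinal.{u}) : Prop :=
  ∀ i ∈ X, h i < g i → h i ≤ k i ∧ k i < g i

/-- there is a bounding family of size `c` -/
def Wit (g : I → Ordinal.{u}) (X : Set I) (c : Cardinal.{u}) : Prop :=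
  ∃ (T : Type u) (F : T → I → Ordinal.{u}), #T = c ∧ ∀ h, ∃ t, Apx g X h (F t)

/-- cofinality of the product of the `g i`, `i ∈ X`, in the pointwise order -/
noncomputable def cfp (g : I → Ordinal.{u}) (X : Set I) : Cardinal.{u} := sInf {c | Wit g X c}

theorem cfp_le_mk {g : I → Ordinal.{u}} {X : Set I} {T : Type u} (F : T → I → Ordinal.{u})
    (h : ∀ h, ∃ t, Apx g X h (F t)) : cfp g X ≤ #T :=
  csInf_le' ⟨T, F, rfl, h⟩

theorem wit_pow (g : I → Ordinal.{u}) (X : Set I) (m : Cardinal.{u}) (h1 : 1 ≤ m)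
    (hm : ∀ i ∈ X, (g i).cof ≤ m) : Wit g X (m ^ #X) := by
  classical
  have h0 : Nonempty m.out := by
    rw [← mk_ne_zero_iff, mk_out]; exact (zero_lt_one.trans_le h1).ne'
  have : ∀ i : X, ∃ e : m.out → Ordinal.{u}, ∀ a < g i, ∃ t, a ≤ e t ∧ e t < g i := fun i =>
    exists_cofinal _ _ (by rw [mk_out]; exact hm i i.2)
  choose e he using this
  refine ⟨X → m.out, fun t i => if hi : i ∈ X then e ⟨i, hi⟩ (t ⟨i, hi⟩) else 0, by simp, fun h => ?_⟩
  have : ∀ i : X, ∃ t, h i < g i → h i ≤ e i t ∧ e i t < g i := fun i => by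
    by_cases hi : h i < g i
    · obtain ⟨t, ht⟩ := he i _ hi
      exact ⟨t, fun _ => ht⟩
    · exact ⟨h0.some, fun hh => absurd hh hi⟩
  choose t ht using this
  refine ⟨t, fun i hi hl => ?_⟩
  simp only [dif_pos hi]
  exact ht ⟨i, hi⟩ hl

theorem cfp_le_pow (g : I → Ordinal.{u}) (X : Set I) (m : Cardinal.{u}) (h1 : 1 ≤ m)
    (hm : ∀ i ∈ X, (g i).cof ≤ m) : cfp g X ≤ m ^ #X :=
  csInf_le' (wit_pow g X m h1 hm)

theorem exists_wit (g : I → Ordinal.{u}) (X : Set I) :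
    ∃ (T : Type u) (F : T → I → Ordinal.{u}), #T = cfp g X ∧ ∀ h, ∃ t, Apx g X h (F t) := by
  have : {c | Wit g X c}.Nonempty :=
    ⟨_, wit_pow g X (max 1 (⨆ i, (g i).cof)) (le_max_left _ _) fun i _ =>
      le_max_of_le_right (le_ciSup (f := fun i => (g i).cof) bddAbove_of_small i)⟩
  exact csInf_mem this

/-- a bounding family indexed by any type of size at least `cfp g X` -/
theorem exists_wit' (g : I → Ordinal.{u}) (X : Set I) (S : Type u) (hS : cfp g X ≤ #S) :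
    ∃ F : S → I → Ordinal.{u}, ∀ h, ∃ t, Apx g X h (F t) := by
  obtain ⟨T, F, hT, hF⟩ := exists_wit g X
  obtain ⟨j⟩ : Nonempty (T ↪ S) := by rw [← Cardinal.le_def, hT]; exact hS
  obtain ⟨t0, -⟩ := hF fun _ => 0
  have : Nonempty T := ⟨t0⟩
  refine ⟨fun s => F (Function.invFun j s), fun h => ?_⟩
  obtain ⟨t, ht⟩ := hF h
  exact ⟨j t, by simpa only [Function.leftInverse_invFun j.injective t] using ht⟩

theorem one_le_cfp (g : I → Ordinal.{u}) (X : Set I) : 1 ≤ cfp g X := by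
  obtain ⟨T, F, hT, hF⟩ := exists_wit g X
  obtain ⟨t0, -⟩ := hF fun _ => 0
  rw [← hT, Cardinal.one_le_iff_ne_zero, mk_ne_zero_iff]
  exact ⟨t0⟩

theorem cfp_mono (g : I → Ordinal.{u}) {X Y : Set I} (h : X ⊆ Y) : cfp g X ≤ cfp g Y := by
  obtain ⟨T, F, hT, hF⟩ := exists_wit g Y
  rw [← hT]
  exact cfp_le_mk F fun k => (hF k).imp fun t ht i hi => ht i (h hi)

theorem cfp_congr {g g' : I → Ordinal.{u}} {X : Set I} (h : ∀ i ∈ X, g i = g' i) :
    cfp g X = cfp g' X := by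
  have key : ∀ {g g' : I → Ordinal.{u}}, (∀ i ∈ X, g i = g' i) → cfp g X ≤ cfp g' X := by
    intro g g' h
    obtain ⟨T, F, hT, hF⟩ := exists_wit g' X
    rw [← hT]
    exact cfp_le_mk F fun k => (hF k).imp fun t ht i hi => by rw [h i hi]; exact ht i hi
  exact le_antisymm (key h) (key fun i hi => (h i hi).symm)

theorem cfp_empty (g : I → Ordinal.{u}) : cfp g ∅ ≤ 1 := by
  simpa using cfp_le_pow g ∅ 1 le_rfl (by simp)

theorem cfp_iUnion_le (g : I → Ordinal.{u}) {B : Type u} (X : B → Set I) (c : Cardinal.{u})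
    (h : ∀ b, cfp g (X b) ≤ c) : cfp g (⋃ b, X b) ≤ c ^ #B := by
  classical
  have : ∀ b, ∃ F : c.out → I → Ordinal.{u}, ∀ h, ∃ t, Apx g (X b) h (F t) := fun b =>
    exists_wit' g (X b) _ (by rw [mk_out]; exact h b)
  choose F hF using this
  have := cfp_le_mk (g := g) (X := ⋃ b, X b) (T := B → c.out)
    (fun t i => if hi : ∃ b, i ∈ X b then F hi.choose (t hi.choose) i else 0) fun k => by
      choose t ht using fun b => hF b k
      refine ⟨t, fun i hi hl => ?_⟩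
      have hi' : ∃ b, i ∈ X b := mem_iUnion.1 hi
      simp only [dif_pos hi']
      exact ht _ i hi'.choose_spec hl
  simpa using this

theorem cfp_union_le (g : I → Ordinal.{u}) (X Y : Set I) : cfp g (X ∪ Y) ≤ cfp g X * cfp g Y := by
  classical
  obtain ⟨T, F, hT, hF⟩ := exists_wit g X
  obtain ⟨S, G, hS, hG⟩ := exists_wit g Y
  have := cfp_le_mk (g := g) (X := X ∪ Y) (T := T × S)
    (fun t i => if i ∈ X then F t.1 i else G t.2 i) fun k => by
      obtain ⟨t, ht⟩ := hF k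
      obtain ⟨s, hs⟩ := hG k
      refine ⟨(t, s), fun i hi hl => ?_⟩
      by_cases hx : i ∈ X
      · simp only [if_pos hx]; exact ht i hx hl
      · simp only [if_neg hx]; exact hs i (hi.resolve_left hx) hl
  simpa [hT, hS] using this

theorem cfp_union_lt (g : I → Ordinal.{u}) {X Y : Set I} {τ : Cardinal.{u}} (hτ : ℵ₀ ≤ τ)
    (hX : cfp g X < τ) (hY : cfp g Y < τ) : cfp g (X ∪ Y) < τ :=
  (cfp_union_le g X Y).trans_lt (mul_lt_of_lt hτ hX hY)

theorem cfp_union_le_of (g : I → Ordinal.{u}) {X Y : Set I} {τ : Cardinal.{u}} (hτ : ℵ₀ ≤ τ)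
    (hX : cfp g X ≤ τ) (hY : cfp g Y ≤ τ) : cfp g (X ∪ Y) ≤ τ :=
  (cfp_union_le g X Y).trans ((mul_le_mul' hX hY).trans (mul_eq_self hτ).le)

theorem cof_le_cfp (g : I → Ordinal.{u}) {X : Set I} {i : I} (hi : i ∈ X)
    (hl : IsSuccLimit (g i)) : (g i).cof ≤ cfp g X := by
  classical
  obtain ⟨T, F, hT, hF⟩ := exists_wit g X
  rw [← hT]
  by_contra hc
  have h1 : (⨆ t, (if F t i < g i then F t i else 0) + 1) < g i :=
    iSup_lt_of_lt_cof (not_le.1 hc) fun t => hl.succ_lt (by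
      split_ifs with h
      · exact h
      · exact hl.pos)
  obtain ⟨t, ht⟩ := hF fun _ => ⨆ t, (if F t i < g i then F t i else 0) + 1
  obtain ⟨h2, h3⟩ := ht i hi h1
  have h4 := Ordinal.le_iSup (fun t => (if F t i < g i then F t i else 0) + 1) t
  simp only [if_pos h3] at h4
  exact absurd (h4.trans h2) (not_le.2 (lt_add_one _))

/-- DIRECTEDNESS: fewer than `τ` functions are bounded outside sets of cofinality `< τ` -/
theorem dir (g : I → Ordinal.{u}) (X0 : Set I) (hcf : ∀ i ∈ X0, 2 ^ #I < (g i).cof)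
    {T : Type u} (F : T → I → Ordinal.{u}) (hF : ∀ t, ∀ i ∈ X0, F t i < g i)
    (τ : Cardinal.{u}) (hT : #T < τ) :
    ∃ h : I → Ordinal.{u}, (∀ i ∈ X0, h i < g i) ∧ (∀ i ∉ X0, h i = 0) ∧
      ∀ t, cfp g {i | i ∈ X0 ∧ h i ≤ F t i} < τ := by
  classical
  have h0 : ∀ i ∈ X0, 0 < g i := fun i hi => cof_pos.1 (zero_le.trans_lt (hcf i hi))
  have : ∀ X : Set I, ∃ k : I → Ordinal.{u}, (∀ i ∈ X0, k i < g i) ∧
      (X ⊆ X0 → τ ≤ cfp g X → ∀ t, ∃ i ∈ X, F t i < k i) := fun X => by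
    by_cases hX : X ⊆ X0 ∧ τ ≤ cfp g X
    · have : ¬ ∀ h, ∃ t, Apx g X h (F t) := fun hh =>
        absurd (hX.2.trans (cfp_le_mk F hh)) (not_le.2 hT)
      obtain ⟨k, hk⟩ := not_forall.1 this
      refine ⟨fun i => if k i < g i then k i else 0, fun i hi => ?_, fun _ _ t => ?_⟩
      · dsimp only
        split_ifs with h
        · exact h
        · exact h0 i hi
      · by_contra hc
        refine hk ⟨t, fun i hi hl => ⟨?_, hF t i (hX.1 hi)⟩⟩
        by_contra hlt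
        exact hc ⟨i, hi, by simpa only [if_pos hl] using not_le.1 hlt⟩
    · exact ⟨fun _ => 0, h0, fun a b => absurd ⟨a, b⟩ hX⟩
  choose k hk1 hk2 using this
  refine ⟨fun i => if i ∈ X0 then ⨆ X, k X i else 0, fun i hi => ?_, fun i hi => if_neg hi,
    fun t => ?_⟩
  · simp only [if_pos hi]
    exact iSup_lt_of_lt_cof (by simpa using hcf i hi) fun X => hk1 X i hi
  · by_contra hc
    obtain ⟨i, ⟨hi, hle⟩, hlt⟩ := hk2 _ (fun i hi => hi.1) (not_lt.1 hc) t
    simp only [if_pos hi] at hle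
    exact absurd ((Ordinal.le_iSup (fun X => k X i) _).trans hle) (not_le.2 hlt)

/-- CHAINS: a `τ`-chain modulo the sets of cofinality `< τ`, above a given `τ`-sequence `k` -/
theorem chain (g : I → Ordinal.{u}) (X0 : Set I) (hcf : ∀ i ∈ X0, 2 ^ #I < (g i).cof)
    (τ : Cardinal.{u}) (hτ : ℵ₀ ≤ τ) (k : Ordinal.{u} → I → Ordinal.{u})
    (hk : ∀ c, ∀ i ∈ X0, k c i < g i) :
    ∃ f : Ordinal.{u} → I → Ordinal.{u}, (∀ c, ∀ i ∈ X0, f c i < g i) ∧ (∀ c, ∀ i ∉ X0, f c i = 0) ∧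
      (∀ c < τ.ord, cfp g {i | i ∈ X0 ∧ f c i ≤ k c i} < τ) ∧
      ∀ c c', c < c' → c' < τ.ord → cfp g {i | i ∈ X0 ∧ f c' i ≤ f c i} < τ := by
  classical
  have h0 : ∀ i ∈ X0, 0 < g i := fun i hi => cof_pos.1 (zero_le.trans_lt (hcf i hi))
  let P := {h : I → Ordinal.{u} // (∀ i ∈ X0, h i < g i) ∧ ∀ i ∉ X0, h i = 0}
  have step : ∀ (c : Ordinal.{u}) (p : ∀ b < c, P), ∃ h : P, c < τ.ord →
      cfp g {i | i ∈ X0 ∧ h.1 i ≤ k c i} < τ ∧
      ∀ b (hb : b < c), cfp g {i | i ∈ X0 ∧ h.1 i ≤ (p b hb).1 i} < τ := fun c p => by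
    by_cases hc : c < τ.ord
    · obtain ⟨h, h1, h2, h3⟩ := dir g X0 hcf (T := Option c.ToType)
        (fun t => t.elim (k c) fun s => (p (val s) (val_lt s)).1)
        (by rintro (_ | s)
            · exact hk c
            · exact (p _ _).2.1) τ
        (by rw [mk_option, mk_toType]
            exact add_lt_of_lt hτ (lt_ord.1 hc) (one_lt_aleph0.trans_le hτ))
      refine ⟨⟨h, h1, h2⟩, fun _ => ⟨h3 none, fun b hb => ?_⟩⟩
      obtain ⟨s, rfl⟩ := exists_val hb
      exact h3 (some s)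
    · exact ⟨⟨fun _ => 0, h0, fun _ _ => rfl⟩, fun h => absurd h hc⟩
  choose G hG using step
  let f : Ordinal.{u} → P := wellFounded_lt.fix G
  have hf : ∀ c, f c = G c fun b _ => f b := fun c => wellFounded_lt.fix_eq G c
  refine ⟨fun c => (f c).1, fun c => (f c).2.1, fun c => (f c).2.2, fun c hc => ?_,
    fun c c' h hc => ?_⟩
  · dsimp only
    rw [hf c]; exact (hG c _ hc).1
  · dsimp only
    rw [hf c']; exact (hG c' _ hc).2 c h

end Pool.Agent.Lib.MP_2b97da_lc
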