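import Mathlib

/-!
Regularity of filters, true cofinality, the cardinals `T`, depth and reduced products.
`K` is the index set (the cardinal `κ`), `D` a filter on `K`.
-/

namespace Pool.Agent.Lib.MP_2b97da_lc.St

open Cardinal Set

universe u

variable {K : Type u}

/-- `D` is `θ`-regular: there are `A ε ∈ D` (`ε < θ`) with every `i` in only finitely many. -/
def IsReg (D : Filter K) (θ : Cardinal.{u}) : Prop :=
  ∃ A : θ.ord.ToType → Set K, (∀ ε, A ε ∈ D) ∧ ∀ i, {ε | i ∈ A ε}.Finite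

/-- `reg(D)`: the least `θ` such that `D` is not `θ`-regular. -/
noncomputable def reg (D : Filter K) : Cardinal.{u} := sInf {θ | ¬ IsReg D θ}

/-- `reg_*(D)`: the least `θ` such that no ultrafilter extending `D` is `θ`-regular. -/
noncomputable def regStar (D : Filter K) : Cardinal.{u} :=
  sInf {θ | ∀ U : Ultrafilter K, (∀ X ∈ D, X ∈ U) → ¬ IsReg (U : Filter K) θ}

/-- `A ∈ D⁺`. -/
def Positive (D : Filter K) (A : Set K) : Prop := Aᶜ ∉ D

/-- `D + A`, the filter generated by `D ∪ {A}`. -/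
def plus (D : Filter K) (A : Set K) : Filter K := Filter.generate (D.sets ∪ {A})

/-- the product of the cardinals `l i`: functions with `f i < l i` -/
def Pr (l : K → Cardinal.{u}) : Type u := ∀ i, (l i).ord.ToType

/-- `f ≠_D g`. -/
def NeD (D : Filter K) {l : K → Cardinal.{u}} (f g : Pr l) : Prop := {i | f i ≠ g i} ∈ D

/-- `f <_D g`. -/
def LtD (D : Filter K) {l : K → Cardinal.{u}} (f g : Pr l) : Prop := {i | f i < g i} ∈ D

/-- `τ = tcf(∏ l / D)`: `τ` is regular and there is a `<_D`-increasing cofinal `τ`-sequence. -/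
def IsTcf (D : Filter K) (l : K → Cardinal.{u}) (τ : Cardinal.{u}) : Prop :=
  τ.IsRegular ∧ ∃ f : τ.ord.ToType → Pr l, (∀ a b, a < b → LtD D (f a) (f b)) ∧
    ∀ g : Pr l, ∃ a, LtD D g (f a)

/-- `htcf_D(∏ α)`: the supremum of the true cofinalities `tcf(∏ l / D)` that exist, over regular
`l i ≤ α i`. -/
noncomputable def htcf (D : Filter K) (α : K → Cardinal.{u}) : Cardinal.{u} :=
  sSup {τ | ∃ l : K → Cardinal.{u}, (∀ i, (l i).IsRegular ∧ l i ≤ α i) ∧ IsTcf D l τ}

/-- distinct members of `F` are `≠_D` -/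
def Sep (D : Filter K) {l : K → Cardinal.{u}} (F : Set (Pr l)) : Prop :=
  ∀ f ∈ F, ∀ g ∈ F, f ≠ g → NeD D f g

/-- `T⁰_D`. -/
noncomputable def T0 (D : Filter K) (l : K → Cardinal.{u}) : Cardinal.{u} :=
  sSup {c | ∃ F : Set (Pr l), Sep D F ∧ #F = c}

/-- `T¹_D`. -/
noncomputable def T1 (D : Filter K) (l : K → Cardinal.{u}) : Cardinal.{u} :=
  sInf {c | ∃ F : Set (Pr l), Maximal (Sep D) F ∧ #F = c}

/-- `T²_D`. -/
noncomputable def T2 (D : Filter K) (l : K → Cardinal.{u}) : Cardinal.{u} :=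
  sInf {c | ∃ F : Set (Pr l), (∀ f, ∃ g ∈ F, ¬ NeD D f g) ∧ #F = c}

/-- the supremum of `T_{D+A}` over those `A ∈ D⁺` for which it is defined -/
noncomputable def supT (D : Filter K) (l : K → Cardinal.{u}) : Cardinal.{u} :=
  sSup {c | ∃ A, Positive D A ∧ T0 (plus D A) l = c ∧ T1 (plus D A) l = c ∧ T2 (plus D A) l = c}

/-- the supremum of `htcf_{D+A}` over `A ∈ D⁺` -/
noncomputable def supH (D : Filter K) (l : K → Cardinal.{u}) : Cardinal.{u} :=
  sSup {c | ∃ A, Positive D A ∧ htcf (plus D A) l = c}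

/-- `Depth⁺` of the partial order with order relation `le`: the least `c` such that there is no
strictly increasing sequence of length `c`. -/
noncomputable def depthP {P : Type u} (le : P → P → Prop) : Cardinal.{u} :=
  sInf {c | ¬ ∃ f : c.ord.ToType → P, ∀ a b, a < b → le (f a) (f b) ∧ f a ≠ f b}

/-- the order of the reduced product `∏ B i / D` (functions modulo equality on a set in `D`) -/
def rpLe (D : Filter K) (B : K → Type u) [∀ i, LE (B i)] (x y : D.Product B) : Prop :=
  ∃ a b : ∀ i, B i, x = (a : D.Product B) ∧ y = (b : D.Product B) ∧ {i | a i ≤ b i} ∈ D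

end Pool.Agent.Lib.MP_2b97da_lc.St
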