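import Pool.Agent.Lib.MP_2b97da_lc.Base

/-! Regularity facts and the diagonal step. -/

namespace Pool.Agent.Lib.MP_2b97da_lc

open Cardinal Ordinal Set Order

universe u

variable {K : Type u}

theorem Rg.le_max {D : Filter K} [D.NeBot] {s : Cardinal.{u}} (h : Rg D s) : s ≤ max #K ℵ₀ := by
  obtain ⟨T, A, hT, hA, hf⟩ := h
  choose f hfi using fun t => Filter.nonempty_of_mem (hA t)
  have h1 : #T ≤ #K * ℵ₀ := mk_le_mk_mul_of_mk_preimage_le f fun i =>
    (lt_aleph0_iff_set_finite.2 ((hf i).subset fun t ht => by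
      have : f t = i := ht
      exact this ▸ hfi t)).le
  rw [← hT]
  refine h1.trans ((mul_le_mul' (le_max_left _ ℵ₀) (le_max_right #K _)).trans ?_)
  exact (mul_eq_self (le_max_right _ _)).le

theorem noPF_of_ultra (D : Filter K) (th : Cardinal.{u}) (hth : ℵ₀ ≤ th)
    (h : ∀ U : Ultrafilter K, (U : Filter K) ≤ D → ¬ Rg (U : Filter K) th) : NoPF D th := by
  classical
  intro T P hT hP hf
  have : Infinite T := by rw [infinite_iff, hT]; exact hth
  obtain ⟨e⟩ : Nonempty (Finset T ≃ T) := Cardinal.eq.1 (mk_finset_of_infinite T)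
  let Y : Finset T → Set K := fun s => {i | ∃ s', s ⊆ s' ∧ i ∈ P (e s')}
  have hne : ∀ s, (D ⊓ Filter.principal (Y s)).NeBot := fun s => by
    have h1 : (Y s)ᶜ ∉ D := fun hc => hP (e s) (Filter.mem_of_superset hc fun i hi hi' =>
      hi ⟨s, subset_rfl, hi'⟩)
    simpa only [compl_compl] using Filter.notMem_iff_inf_principal_compl.1 h1
  have hd : Directed (· ≥ ·) fun s => D ⊓ Filter.principal (Y s) := fun s s' =>
    ⟨s ∪ s', inf_le_inf_left _ (Filter.principal_mono.2 fun i ⟨r, hr, hi⟩ =>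
        ⟨r, Finset.subset_union_left.trans hr, hi⟩),
      inf_le_inf_left _ (Filter.principal_mono.2 fun i ⟨r, hr, hi⟩ =>
        ⟨r, Finset.subset_union_right.trans hr, hi⟩)⟩
  have := Filter.iInf_neBot_of_directed' hd hne
  obtain ⟨U, hU⟩ := Ultrafilter.exists_le (⨅ s, D ⊓ Filter.principal (Y s))
  have hU' : ∀ s, (U : Filter K) ≤ D ⊓ Filter.principal (Y s) := fun s => hU.trans (iInf_le _ s)
  refine h U ((hU' ∅).trans inf_le_left) ⟨T, fun t => Y {t}, hT, fun t =>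
    Filter.le_principal_iff.1 ((hU' {t}).trans inf_le_right), fun i => ?_⟩
  have h2 : {s : Finset T | i ∈ P (e s)}.Finite := (hf i).preimage e.injective.injOn
  refine (h2.biUnion (t := fun s => (s : Set T)) fun s _ => s.finite_toSet).subset ?_
  rintro t ⟨s, hs, hi⟩
  exact mem_biUnion (x := s) hi (hs (Finset.mem_singleton_self t))

theorem diag (D : Filter K) (th : Cardinal.{u}) (h2 : NoPF D th) {L : Type u} [LinearOrder L]
    [Nonempty L] (hL : Rg D #L) (J : L → Set K → Prop) (hn : ∀ x Z, J x Z → Zᶜ ∈ D)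
    (hU : ∀ (x : L) (B : Type u) (Z : B → Set K), #B < th → (∀ b, J x (Z b)) → J x (⋃ b, Z b)) 
    (hth : ℵ₀ ≤ th) :
    ∃ x : K → L, (∀ x0, {i | x0 ≤ x i} ∈ D) ∧
      ∀ Z : L → Set K, (∀ y, J y (Z y)) → {i | i ∉ Z (x i)} ∈ D := by
  classical
  obtain ⟨T, A, hT, hA, hf⟩ := hL
  obtain ⟨e⟩ : Nonempty (L ≃ T) := Cardinal.eq.1 hT.symm
  let X : L → Set K := fun x => A (e x)
  have hX : ∀ x, X x ∈ D := fun x => hA _
  have hXf : ∀ i, {x | i ∈ X x}.Finite := fun i => (hf i).preimage e.injective.injOn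
  let Q := {Z : L → Set K // ∀ y, J y (Z y)}
  let Pz : Q → Q → Set K := fun W Z => {i | ∃ x, i ∈ X x ∧ i ∉ W.1 x ∧ i ∈ Z.1 x}
  have key : ∃ W : Q, ∀ Z : Q, (Pz W Z)ᶜ ∈ D := by
    by_contra hc
    have hc' : ∀ W : Q, ∃ Z : Q, (Pz W Z)ᶜ ∉ D := fun W => by
      by_contra h
      exact hc ⟨W, fun Z => by_contra fun h' => h ⟨Z, h'⟩⟩
    choose G hG using hc'
    let un : ∀ a : th.ord.ToType, (∀ b < a, Q) → Q := fun a p =>
      ⟨fun y => ⋃ b : Iio a, (p b.1 b.2).1 y, fun y =>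
        hU y _ _ (mk_Iio_toType_ord_lt a) fun b => (p b.1 b.2).2 y⟩
    let Z : th.ord.ToType → Q := wellFounded_lt.fix fun a p => G (un a p)
    have hZ : ∀ a, Z a = G (un a fun b _ => Z b) := fun a => wellFounded_lt.fix_eq _ a
    refine h2 th.ord.ToType (fun a => Pz (un a fun b _ => Z b) (Z a)) (mk_ord_toType th)
      (fun a => by rw [hZ a]; exact hG _) fun i => ?_
    have : ∀ a : {a | i ∈ Pz (un a fun b _ => Z b) (Z a)}, ∃ x : {x | i ∈ X x},
        i ∉ (un a.1 fun b _ => Z b).1 x.1 ∧ i ∈ (Z a.1).1 x.1 := fun a => by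
      obtain ⟨x, h1, h2⟩ := a.2
      exact ⟨⟨x, h1⟩, h2⟩
    choose g hg using this
    have : Finite {x | i ∈ X x} := hXf i
    refine Finite.of_injective g fun a b hab => Subtype.ext ?_
    by_contra hne
    rcases lt_or_gt_of_ne hne with h | h
    · exact (hg b).1 (mem_iUnion.2 ⟨⟨a.1, h⟩, hab ▸ (hg a).2⟩)
    · exact (hg a).1 (mem_iUnion.2 ⟨⟨b.1, h⟩, hab ▸ (hg b).2⟩)
  obtain ⟨W, hW⟩ := key
  have : ∀ i, ∃ x : L, ∀ y, i ∈ X y → i ∉ W.1 y → y ≤ x ∧ i ∈ X x ∧ i ∉ W.1 x := fun i => by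
    by_cases h : {y | i ∈ X y ∧ i ∉ W.1 y}.Nonempty
    · obtain ⟨x, hx, hm⟩ := exists_max_image _ id ((hXf i).subset fun y hy => hy.1) h
      exact ⟨x, fun y h1 h2 => ⟨hm y ⟨h1, h2⟩, hx⟩⟩
    · exact ⟨Classical.arbitrary L, fun y h1 h2 => absurd ⟨y, h1, h2⟩ h⟩
  choose x hx using this
  refine ⟨x, fun x0 => ?_, fun Z hZ => ?_⟩
  · filter_upwards [hX x0, hn _ _ (W.2 x0)] with i h1 h2 using (hx i x0 h1 h2).1
  · have x0 : L := Classical.arbitrary L
    filter_upwards [hX x0, hn _ _ (W.2 x0), hW ⟨Z, hZ⟩] with i h1 h2 h3 h4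
    exact h3 ⟨x i, (hx i x0 h1 h2).2.1, (hx i x0 h1 h2).2.2, h4⟩

end Pool.Agent.Lib.MP_2b97da_lc
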