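import Pool.Agent.Lib.MP_2b97da_lc.Base

/-! Exact upper bounds of long increasing chains. -/

namespace Pool.Agent.Lib.MP_2b97da_lc

open Cardinal Ordinal Set Order

universe u

variable {K : Type u}

theorem exists_eub (D : Filter K) (tau : Cardinal.{u}) (ht : tau.IsRegular)
    (hK : 2 ^ max #K ℵ₀ < tau) (lam : K → Ordinal.{u}) (F : Ordinal.{u} → K → Ordinal.{u})
    (hF : ∀ c i, F c i < lam i)
    (hinc : ∀ c c', c < c' → c' < tau.ord → {i | F c i < F c' i} ∈ D) :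
    ∃ h : K → Ordinal.{u}, (∀ i, h i ≤ lam i) ∧ (∀ c < tau.ord, {i | F c i < h i} ∈ D) ∧
      ∀ g : K → Ordinal.{u}, {i | g i < h i} ∈ D → ∃ c < tau.ord, {i | g i < F c i} ∈ D := by
  classical
  have h0 : ∀ g : K → Ordinal.{u}, ∃ h : K → Ordinal.{u},
      (∃ h' : K → Ordinal.{u}, ∀ c < tau.ord, ∃ i, h' i < g i ∧ F c i ≤ h' i) →
        ∀ c < tau.ord, ∃ i, h i < g i ∧ F c i ≤ h i := fun g => by
    by_cases h : ∃ h' : K → Ordinal.{u}, ∀ c < tau.ord, ∃ i, h' i < g i ∧ F c i ≤ h' i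
    · exact ⟨h.choose, fun _ => h.choose_spec⟩
    · exact ⟨g, fun h' => absurd h' h⟩
  choose H hH using h0
  have hl : IsSuccLimit tau.ord := isSuccLimit_ord ht.aleph0_le
  have h1 : ∀ g : K → Ordinal.{u}, ∃ c < tau.ord,
      {i | F c i < g i} ∈ D → ∀ c' < tau.ord, {i | F c' i < g i} ∈ D := fun g => by
    by_cases h : ∀ c' < tau.ord, {i | F c' i < g i} ∈ D
    · exact ⟨0, hl.pos, fun _ => h⟩
    · obtain ⟨c, hc⟩ := not_forall.1 h
      obtain ⟨hc1, hc2⟩ := Classical.not_imp.1 hc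
      exact ⟨c, hc1, fun h' => absurd h' hc2⟩
  choose C hC1 hC2 using h1
  let β : K ⊕ K → Type u := fun a => match a with
    | .inl _ => PEmpty
    | .inr _ => K
  let ev : WType β → Ordinal.{u} := WType.elim _ fun x => match x with
    | ⟨.inl i, _⟩ => lam i
    | ⟨.inr i, p⟩ => H p i
  have hk : ℵ₀ ≤ max #K ℵ₀ := le_max_right _ _
  have hm : ℵ₀ ≤ 2 ^ max #K ℵ₀ := hk.trans (cantor _).le
  have hm0 : (2 : Cardinal.{u}) ^ max #K ℵ₀ ≠ 0 := power_ne_zero _ two_ne_zero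
  have hp : ((2 : Cardinal.{u}) ^ max #K ℵ₀) ^ #K ≤ 2 ^ max #K ℵ₀ :=
    (power_le_power_left hm0 (le_max_left #K ℵ₀)).trans (by rw [← power_mul, mul_eq_self hk])
  have hW : #(WType β) ≤ 2 ^ max #K ℵ₀ := WType.cardinalMk_le_of_le <| by
    refine (sum_le_sum _ (fun _ => 2 ^ max #K ℵ₀) ?_).trans ?_
    · rintro (i | i)
      · exact (power_le_power_left hm0 (show #PEmpty ≤ #K by simp)).trans hp
      · exact hp
    · have hKm : #K ≤ 2 ^ max #K ℵ₀ := (le_max_left _ _).trans (cantor _).le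
      rw [sum_const', mk_sum, Cardinal.lift_id]
      refine (mul_le_mul' (add_le_add hKm hKm) le_rfl).trans ?_
      rw [add_eq_self hm, mul_eq_self hm]
  have hd : (⨆ p : K → WType β, C (fun i => ev (p i)) + 1) < tau.ord :=
    iSup_lt_of_lt_cof (by
      rw [ht.cof_ord, ← power_def]
      exact ((power_le_power_right hW).trans hp).trans_lt hK) fun p => hl.succ_lt (hC1 _)
  generalize hdd : (⨆ p : K → WType β, C (fun i => ev (p i)) + 1) = d at hd
  have hd' : ∀ p : K → WType β, C (fun i => ev (p i)) < d := fun p =>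
    (lt_add_one _).trans_le (hdd ▸ Ordinal.le_iSup (fun p : K → WType β =>
      C (fun i => ev (p i)) + 1) p)
  have h2 : ∀ i, ∃ w : WType β, F d i ≤ ev w ∧ ∀ w', F d i ≤ ev w' → ev w ≤ ev w' := fun i => by
    obtain ⟨w, hw, hmin⟩ := (InvImage.wf ev wellFounded_lt).has_min {w | F d i ≤ ev w}
      ⟨WType.mk (.inl i) PEmpty.elim, (hF d i).le⟩
    exact ⟨w, hw, fun w' hw' => not_lt.1 (hmin w' hw')⟩
  choose p hp1 hp2 using h2
  refine ⟨fun i => ev (p i), fun i => hp2 i (WType.mk (.inl i) PEmpty.elim) (hF d i).le,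
    hC2 _ ?_, fun g hg => ?_⟩
  · filter_upwards [hinc _ _ (hd' p) hd] with i hi using hi.trans_le (hp1 i)
  · have : ∃ c < tau.ord, ∀ i, g i < ev (p i) → g i < F c i := by
      by_contra hc
      obtain ⟨i, e1, e2⟩ := hH (fun i => ev (p i)) ⟨g, fun c hc' => by
        by_contra h
        exact hc ⟨c, hc', fun i hi => lt_of_not_ge fun h' => h ⟨i, hi, h'⟩⟩⟩ d hd
      exact absurd (hp2 i (WType.mk (.inr i) p) e2) (not_le.2 e1)
    obtain ⟨c, hc, h⟩ := this
    exact ⟨c, hc, Filter.mem_of_superset hg h⟩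

end Pool.Agent.Lib.MP_2b97da_lc
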