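import Pool.Agent.Lib.MP_2b97da_lc.Base

/-! A function below `lam` all of whose small sets are null, and the chain it gives. -/

namespace Pool.Agent.Lib.MP_2b97da_lc

open Cardinal Ordinal Set Order

universe u

variable {K : Type u}

theorem finite_of_anti {A : Type u} [LinearOrder A] [WellFoundedLT A] (S : Set A)
    (v : A → Ordinal.{u}) (h : ∀ a ∈ S, ∀ b ∈ S, b < a → v a < v b) : S.Finite := by
  have : WellFoundedGT S := ⟨(InvImage.wf (fun a : S => v a.1) wellFounded_lt).mono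
    fun a b hab => h _ a.2 _ b.2 hab⟩
  exact Finite.of_wellFoundedLT_wellFoundedGT S

theorem Cl.le {th s : Cardinal.{u}} (hs : Cl th s) (hω : ℵ₀ ≤ s) : th ≤ s :=
  le_of_not_gt fun h =>
    absurd ((power_le_power_right ((natCast_lt_aleph0 (n := 2)).le.trans hω)).trans (hs s h))
      (not_le.2 (by simpa using cantor s))

/-- few members of a pairwise different family agree with a given function on a positive set -/
theorem exists_different (D : Filter K) {T W : Type u} (F0 : T → K → Ordinal.{u})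
    (hd : ∀ t t', t ≠ t' → {i | F0 t i ≠ F0 t' i} ∈ D) (ev : W → K → Ordinal.{u})
    (h : #W * 2 ^ #K < #T) : ∃ t, ∀ w, {i | F0 t i ≠ ev w i} ∈ D := by
  by_contra hc
  have : ∀ t, ∃ w, {i | F0 t i ≠ ev w i} ∉ D := fun t => by
    by_contra h'
    exact hc ⟨t, fun w => by_contra fun h'' => h' ⟨w, h''⟩⟩
  choose w hw using this
  refine absurd h (not_lt.2 ?_)
  have := mk_le_of_injective (α := T) (β := W × Set K)
    (f := fun t => (w t, {i | F0 t i = ev (w t) i})) fun t t' e => by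
      by_contra hne
      have e1 : w t = w t' := congrArg Prod.fst e
      have e2 : {i | F0 t i = ev (w t) i} = {i | F0 t' i = ev (w t') i} := congrArg Prod.snd e
      refine hw t (Filter.mem_of_superset (hd t t' hne) fun i hi hi' => hi ?_)
      have h3 : i ∈ {i | F0 t' i = ev (w t') i} := e2 ▸ hi'
      rw [hi', e1]; exact h3.symm
  simpa using this

theorem exists_good (D : Filter K) (th : Cardinal.{u}) (hth : ℵ₀ ≤ th) (h2 : NoPF D th)
    (lam : K → Ordinal.{u}) {T : Type u} (F0 : T → K → Ordinal.{u}) (hF : ∀ t i, F0 t i < lam i)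
    (hd : ∀ t t', t ≠ t' → {i | F0 t i ≠ F0 t' i} ∈ D)
    (s : Cardinal.{u}) (hs : Cl th s) (hK : 2 ^ #K ≤ s) (hω : ℵ₀ ≤ s) (hT : s < #T) :
    ∃ g : K → Ordinal.{u}, (∀ i, g i ≤ lam i) ∧ ∀ X, cfp g X ≤ s → Xᶜ ∈ D := by
  classical
  by_contra hc
  have h0 : ∀ g : K → Ordinal.{u}, ∃ (X : Set K) (F : s.out → K → Ordinal.{u}),
      (∀ h, ∃ t, Apx g X h (F t)) ∧ ((∀ i, g i ≤ lam i) → Xᶜ ∉ D) := fun g => by
    by_cases hg : ∀ i, g i ≤ lam i
    · have : ∃ X, cfp g X ≤ s ∧ Xᶜ ∉ D := by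
        by_contra h
        exact hc ⟨g, hg, fun X hX => by_contra fun h' => h ⟨X, hX, h'⟩⟩
      obtain ⟨X, hX, hX'⟩ := this
      obtain ⟨F, hF⟩ := exists_wit' g X s.out (by rwa [mk_out])
      exact ⟨X, F, hF, fun _ => hX'⟩
    · obtain ⟨F, hF⟩ := exists_wit' g ∅ s.out
        (by rw [mk_out]; exact (cfp_empty g).trans (one_le_aleph0.trans hω))
      exact ⟨∅, F, hF, fun h => absurd h hg⟩
  choose X F hXF hX using h0
  obtain ⟨k0, -⟩ := hXF lam lam
  let β : th.ord.ToType × Set K × s.out → Type u := fun a => Iio a.1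
  let mn : ∀ {B : Type u}, (B → K → Ordinal.{u}) → K → Ordinal.{u} := fun p i =>
    sInf (insert (lam i) (range fun b => p b i))
  let ev : WType β → K → Ordinal.{u} := WType.elim _ fun x i =>
    if i ∈ x.1.2.1 then F (mn x.2) x.1.2.2 i else mn x.2 i
  have hW : #(WType β) ≤ s := WType.cardinalMk_le_of_le <| by
    refine (sum_le_sum _ (fun _ => s) fun a : th.ord.ToType × Set K × s.out =>
      hs _ (mk_Iio_toType_ord_lt a.1)).trans ?_
    simp only [sum_const', mk_prod, Cardinal.lift_id, mk_ord_toType, mk_set, mk_out]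
    calc th * (2 ^ #K * s) * s ≤ s * (s * s) * s := by gcongr; exact hs.le hω
      _ = s := by simp only [mul_eq_self hω]
  obtain ⟨t, ht⟩ := exists_different D F0 hd ev
    ((mul_le_mul' hW hK).trans_lt (by rwa [mul_eq_self hω]))
  let Q := {w : WType β // ∀ i, F0 t i ≤ ev w i}
  have step : ∀ (a : th.ord.ToType) (p : ∀ b < a, Q), ∃ w : Q × Set K, w.2ᶜ ∉ D ∧
      ∀ b (hb : b < a), ∀ i ∈ w.2, ev w.1.1 i < ev (p b hb).1 i := fun a p => by
    let q : Iio a → WType β := fun b => (p b.1 b.2).1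
    let h : K → Ordinal.{u} := mn fun b => ev (q b)
    have h1 : ∀ i, h i ≤ lam i := fun i => csInf_le' (mem_insert _ _)
    have h3 : ∀ b i, h i ≤ ev (q b) i := fun b i => csInf_le' (mem_insert_of_mem _ ⟨b, rfl⟩)
    have h4 : ∀ i, F0 t i ≤ h i := fun i => le_csInf (insert_nonempty _ _) (by
      rintro _ (rfl | ⟨b, rfl⟩)
      · exact (hF t i).le
      · exact (p b.1 b.2).2 i)
    have h5 : {i | F0 t i ≠ h i} ∈ D := by
      have := ht (WType.mk (a, ∅, k0) q)
      simpa only [ev, WType.elim, mem_empty_iff_false, if_false] using this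
    obtain ⟨k, hk⟩ := hXF h (F0 t)
    have h6 : ∀ (Z : Set K) i, ev (WType.mk (a, Z, k) q) i =
        if i ∈ Z then F h k i else h i := fun _ _ => rfl
    refine ⟨(⟨WType.mk (a, {i | i ∈ X h ∧ F0 t i < h i}, k) q, fun i => ?_⟩,
      {i | i ∈ X h ∧ F0 t i < h i}), fun hc => hX h h1 ?_, fun b hb i hi => ?_⟩
    · rw [h6]
      split_ifs with hi
      · exact (hk i hi.1 hi.2).1
      · exact h4 i
    · filter_upwards [hc, h5] with i e1 e2 e3
      exact e1 ⟨e3, lt_of_le_of_ne (h4 i) e2⟩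
    · refine ((h6 _ i).trans (if_pos hi)).trans_lt ?_
      exact (hk i hi.1 hi.2).2.trans_le (h3 ⟨b, hb⟩ i)
  choose G hG1 hG2 using step
  let w : th.ord.ToType → Q := wellFounded_lt.fix fun a p => (G a p).1
  have hw : ∀ a, w a = (G a fun b _ => w b).1 := fun a => wellFounded_lt.fix_eq _ a
  refine h2 th.ord.ToType (fun a => (G a fun b _ => w b).2) (mk_ord_toType th)
    (fun a => hG1 _ _) fun i => finite_of_anti _ (fun a => ev (w a).1 i) fun a ha b _ hb => ?_
  rw [hw a]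
  exact hG2 a _ b hb i ha

theorem good_chain (lam g : K → Ordinal.{u}) (hg : ∀ i, g i ≤ lam i) (h0 : ∀ i, 0 < lam i)
    (s : Cardinal.{u}) (hK : 2 ^ #K ≤ s) (hω : ℵ₀ ≤ s) :
    ∃ k : Ordinal.{u} → K → Ordinal.{u}, (∀ c i, k c i < lam i) ∧
      ∀ c c', c < c' → c' < (succ s).ord → cfp g {i | k c' i ≤ k c i} ≤ s := by
  obtain ⟨f, h1, h2, -, h3⟩ := chain g {i | 2 ^ #K < (g i).cof} (fun i hi => hi) (succ s)
    (hω.trans (le_succ s)) (fun _ _ => 0) fun _ i hi => cof_pos.1 (zero_le.trans_lt hi)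
  have h4 : cfp g {i | 2 ^ #K < (g i).cof}ᶜ ≤ s := by
    have h5 : (1 : Cardinal.{u}) ≤ 2 ^ #K := Cardinal.one_le_iff_ne_zero.2 (power_ne_zero _ two_ne_zero)
    refine (cfp_le_pow g _ (2 ^ #K) h5 fun i hi => not_lt.1 hi).trans ?_
    refine (power_le_power_left (zero_lt_one.trans_le h5).ne' (mk_set_le _)).trans ?_
    rcases lt_or_ge #K ℵ₀ with h | h
    · exact (power_lt_aleph0 (power_lt_aleph0 (natCast_lt_aleph0 (n := 2)) h) h).le.trans hω
    · rw [← power_mul, mul_eq_self h]; exact hK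
  refine ⟨f, fun c i => ?_, fun c c' h hc => ?_⟩
  · by_cases hi : i ∈ {i | 2 ^ #K < (g i).cof}
    · exact (h1 c i hi).trans_le (hg i)
    · rw [h2 c i hi]; exact h0 i
  · refine (cfp_mono g ?_).trans (cfp_union_le_of g hω (lt_succ_iff.1 (h3 c c' h hc)) h4)
    intro i hi
    by_cases h' : i ∈ {i | 2 ^ #K < (g i).cof}
    · exact Or.inl ⟨h', hi⟩
    · exact Or.inr h'

end Pool.Agent.Lib.MP_2b97da_lc
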