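import Pool.Agent.Lib.MP_2b97da_lc.Base

/-! The least cardinal with no closed cardinal between it and `chi`. -/

namespace Pool.Agent.Lib.MP_2b97da_lc

open Cardinal Ordinal Set Order

universe u

theorem mk_le_val_lt {nu : Cardinal.{u}} (hi : ℵ₀ ≤ nu) {b : Ordinal.{u}} (hb : b < nu.ord) :
    #{a : nu.ord.ToType | val a ≤ b} < nu := by
  obtain ⟨x, rfl⟩ := exists_val hb
  have : {a : nu.ord.ToType | val a ≤ val x} = Iic x := by
    ext a; exact val_le_val
  rw [this]
  have h := mk_Iic_lt x (by simp) (by simpa using hi)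
  simpa using h

/-- powers below the cofinality -/
theorem pow_le_of_lt_cof {nu r c : Cardinal.{u}} (hi : ℵ₀ ≤ nu) (hr : r < nu.ord.cof)
    (hc : ∀ a < nu, a ^ r ≤ c) : nu ^ r ≤ nu * c := by
  have h1 : (univ : Set (r.out → nu.ord.ToType)) ⊆
      ⋃ b : nu.ord.ToType, {f | ∀ j, val (f j) ≤ val b} := fun f _ => by
    have : (⨆ j, val (f j)) < nu.ord :=
      iSup_lt_of_lt_cof (by rwa [mk_out]) fun j => val_lt _
    obtain ⟨b, hb⟩ := exists_val this
    exact mem_iUnion.2 ⟨b, fun j => hb ▸ Ordinal.le_iSup (fun j => val (f j)) j⟩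
  have h2 := (mk_le_mk_of_subset h1).trans (mk_iUnion_le _)
  rw [mk_univ, ← power_def, mk_out, mk_ord_toType] at h2
  refine h2.trans (mul_le_mul' le_rfl (ciSup_le' fun b => ?_))
  refine le_trans ?_ (hc _ (mk_le_val_lt hi (val_lt b)))
  conv_rhs => rw [← mk_out r, power_def]
  exact mk_le_of_injective (f := fun f j => ⟨f.1 j, f.2 j⟩) fun f g h =>
    Subtype.ext (funext fun j => congrArg Subtype.val (congrFun h j))

/-- powers of a cardinal through a cofinal family -/
theorem pow_le_cof {nu r c : Cardinal.{u}} (hi : ℵ₀ ≤ nu)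
    (hc : ∀ a < nu, a ^ r ≤ c) : nu ^ r ≤ nu.ord.cof ^ r * c ^ nu.ord.cof := by
  classical
  obtain ⟨e, he⟩ := exists_cofinal nu.ord nu.ord.cof.out (mk_out _).ge
  let B : nu.ord.cof.out → Set nu.ord.ToType := fun x => {a | e x < nu.ord ∧ val a ≤ e x}
  have hB : ∀ x, Nonempty ((r.out → Option (B x)) ↪ c.out) := fun x => by
    rw [← Cardinal.le_def, ← power_def, mk_out, mk_out, mk_option]
    refine hc _ (add_lt_of_lt hi ?_ (one_lt_aleph0.trans_le hi))
    by_cases h : e x < nu.ord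
    · exact (mk_le_mk_of_subset fun a ha => ha.2).trans_lt (mk_le_val_lt hi h)
    · have : B x = ∅ := eq_empty_of_forall_notMem fun a ha => h ha.1
      rw [this, mk_eq_zero]
      exact aleph0_pos.trans_le hi
  have j := fun x => (hB x).some
  choose g hg using fun a : nu.ord.ToType => he (val a) (val_lt a)
  have h := mk_le_of_injective (α := r.out → nu.ord.ToType)
    (β := (r.out → nu.ord.cof.out) × (nu.ord.cof.out → c.out))
    (f := fun f => (fun i => g (f i), fun x => j x fun i =>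
      if h : f i ∈ B x then some ⟨f i, h⟩ else none)) fun f f' h => funext fun i => by
      have h1 : g (f i) = g (f' i) := congrFun (congrArg Prod.fst h) i
      have h2 := congrFun ((j (g (f i))).injective (congrFun (congrArg Prod.snd h) (g (f i)))) i
      have h3 : f i ∈ B (g (f i)) := ⟨(hg _).2, (hg _).1⟩
      have h4 : f' i ∈ B (g (f i)) := h1 ▸ ⟨(hg _).2, (hg _).1⟩
      simpa only [dif_pos h3, dif_pos h4, Option.some.injEq, Subtype.mk.injEq] using h2
  simpa only [mk_prod, Cardinal.lift_id, ← power_def, mk_out, mk_ord_toType] using h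

theorem exists_nu (th chi m : Cardinal.{u}) (hm : ℵ₀ ≤ m) (hcl : Cl th m) (hle : m ≤ chi)
    (hω : chi ^ ℵ₀ ≤ chi) (hn : ¬ Cl th chi) :
    ∃ nu t : Cardinal.{u}, t.IsRegular ∧ ℵ₀ < t ∧ t < th ∧ nu.ord.cof = t ∧ m < nu ∧ nu ≤ chi ∧
      (∀ a < nu, ∃ s, a ≤ s ∧ s < nu ∧ Cl th s) ∧ chi < nu ^ t := by
  let S : Set Cardinal.{u} := {n | ∀ s, n ≤ s → s ≤ chi → ¬ Cl th s}
  have hc : chi ∈ S := fun s h1 h2 => le_antisymm h2 h1 ▸ hn
  obtain ⟨nu, hnu, hmin⟩ : ∃ nu ∈ S, ∀ a ∈ S, nu ≤ a :=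
    ⟨sInf S, csInf_mem ⟨_, hc⟩, fun a ha => csInf_le' ha⟩
  have h1 : nu ≤ chi := hmin _ hc
  have h2 : m < nu := lt_of_not_ge fun h => hnu m h hle hcl
  have hi : ℵ₀ ≤ nu := hm.trans h2.le
  have h3 : ∀ a < nu, ∃ s, a ≤ s ∧ s < nu ∧ Cl th s := fun a ha => by
    by_contra h
    refine absurd (hmin a fun s hs hs' hc => ?_) (not_le.2 ha)
    exact h ⟨s, hs, lt_of_not_ge fun h' => hnu s h' hs' hc, hc⟩
  have h4 : ∀ r < th, ∀ a < nu, a ^ r ≤ nu := fun r hr a ha => by
    obtain ⟨s, hs, hs', hc⟩ := h3 a ha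
    exact (power_le_power_right hs).trans ((hc r hr).trans hs'.le)
  have hreg : nu.ord.cof.IsRegular := isRegular_cof (isSuccLimit_ord hi)
  have h5 : nu.ord.cof < th := lt_of_not_ge fun h => hnu nu le_rfl h1 fun r hr =>
    (pow_le_of_lt_cof hi (hr.trans_le h) (h4 r hr)).trans (mul_eq_self hi).le
  have h6 : th ≤ m := le_of_not_gt fun h =>
    absurd ((power_le_power_right ((natCast_lt_aleph0 (n := 2)).le.trans hm)).trans (hcl m h))
      (not_le.2 (by simpa using cantor m))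
  have h7 : nu ≤ nu ^ nu.ord.cof := self_le_power _ (one_le_aleph0.trans hreg.aleph0_le)
  have h8 : chi < nu ^ nu.ord.cof := lt_of_not_ge fun h => hnu _ h7 h fun r hr => by
    have hr' : nu.ord.cof * r < th := mul_lt_of_lt (hreg.aleph0_le.trans h5.le) h5 hr
    rw [← power_mul]
    refine (pow_le_cof hi (h4 _ hr')).trans ?_
    refine (mul_le_mul' ((h4 _ hr' _ (h5.trans_le (h6.trans h2.le))).trans h7) le_rfl).trans ?_
    exact (mul_eq_self (hi.trans h7)).le
  refine ⟨nu, _, hreg, lt_of_le_of_ne hreg.aleph0_le fun h => ?_, h5, rfl, h2, h1, h3, h8⟩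
  rw [← h] at h8
  exact absurd ((power_le_power_right h1).trans hω) (not_le.2 h8)

end Pool.Agent.Lib.MP_2b97da_lc
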