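import Pool.Agent.Lib.MP_2b97da_lc.Star
import Pool.Agent.Lib.MP_2b97da_lc.Good
import Pool.Agent.Lib.MP_2b97da_lc.Diag
import Pool.Agent.Lib.MP_2b97da_lc.Nu

/-! The long chain modulo `D`. -/

namespace Pool.Agent.Lib.MP_2b97da_lc

open Cardinal Ordinal Set Order

universe u

variable {K : Type u}

theorem main (D : Filter K) [D.NeBot] (th : Cardinal.{u}) (hth : ℵ₀ ≤ th)
    (h1 : ∀ s < th, Rg D s) (h2 : NoPF D th)
    (lam : K → Ordinal.{u}) {T : Type u} (F0 : T → K → Ordinal.{u}) (hF : ∀ t i, F0 t i < lam i)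
    (hd : ∀ t t', t ≠ t' → {i | F0 t i ≠ F0 t' i} ∈ D)
    (chi : Cardinal.{u}) (hi : ℵ₀ ≤ chi) (hω : chi ^ ℵ₀ ≤ chi) (hK : 2 ^ #K ≤ chi) (hT : chi < #T) :
    ∃ F : Ordinal.{u} → K → Ordinal.{u}, (∀ c i, F c i < lam i) ∧
      ∀ c c', c < c' → c' < (succ chi).ord → {i | F c i < F c' i} ∈ D := by
  classical
  obtain ⟨t0⟩ : Nonempty T := mk_ne_zero_iff.1 (zero_le.trans_lt hT).ne'
  have h0 : ∀ i, 0 < lam i := fun i => zero_le.trans_lt (hF t0 i)
  have good : ∀ s, Cl th s → 2 ^ #K ≤ s → ℵ₀ ≤ s → s ≤ chi →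
      ∃ (g : K → Ordinal.{u}) (k : Ordinal.{u} → K → Ordinal.{u}),
        (∀ X, cfp g X ≤ s → Xᶜ ∈ D) ∧ (∀ c i, k c i < lam i) ∧
        ∀ c c', c < c' → c' < (succ s).ord → cfp g {i | k c' i ≤ k c i} ≤ s :=
    fun s hs hs1 hs2 hs3 => by
      obtain ⟨g, hg1, hg2⟩ := exists_good D th hth h2 lam F0 hF hd s hs hs1 hs2 (hs3.trans_lt hT)
      obtain ⟨k, hk1, hk2⟩ := good_chain lam g hg1 h0 s hs1 hs2
      exact ⟨g, k, hg2, hk1, hk2⟩
  by_cases hcl : Cl th chi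
  · obtain ⟨g, k, hg, hk1, hk2⟩ := good chi hcl hK hi le_rfl
    refine ⟨k, hk1, fun c c' h h' => ?_⟩
    filter_upwards [hg _ (hk2 c c' h h')] with i hi using not_le.1 hi
  have m0 : ℵ₀ ≤ max #K ℵ₀ := le_max_right _ _
  have m1 : ℵ₀ ≤ 2 ^ max #K ℵ₀ := m0.trans (cantor _).le
  have m2 : Cl th (2 ^ max #K ℵ₀) := fun r hr => by
    refine (power_le_power_left (aleph0_pos.trans_le m1).ne' (h1 r hr).le_max).trans ?_
    rw [← power_mul, mul_eq_self m0]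
  have m3 : 2 ^ max #K ℵ₀ ≤ chi := by
    rcases le_total #K ℵ₀ with h | h
    · rw [max_eq_right h]
      exact (power_le_power_right ((natCast_lt_aleph0 (n := 2)).le.trans hi)).trans hω
    · rwa [max_eq_left h]
  obtain ⟨nu, t, ht, ht1, ht2, hcf, hm, hle, hcof, hbig⟩ := exists_nu th chi _ m1 m2 m3 hω hcl
  obtain ⟨b, f, hb, hf1, hf2⟩ := star t nu chi ht ht1 hcf
    ((power_le_power_left two_ne_zero (h1 t ht2).le_max).trans_lt hm) hle
    (fun a ha => by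
      obtain ⟨s, hs1, hs2, hs3⟩ := hcof a ha
      exact ((power_le_power_right hs1).trans (hs3 t ht2)).trans_lt hs2) hω hbig
  choose s hs1 hs2 hs3 using fun x => hcof (max (b x).card (2 ^ max #K ℵ₀))
    (max_lt (lt_ord.1 (hb x)) hm)
  have s1 : ∀ x, 2 ^ max #K ℵ₀ ≤ s x := fun x => (le_max_right _ _).trans (hs1 x)
  choose g k hg hk1 hk2 using fun x => good (s x) (hs3 x)
    ((power_le_power_left two_ne_zero (le_max_left _ _)).trans (s1 x)) (m1.trans (s1 x))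
    ((hs2 x).le.trans hle)
  have : Nonempty t.ord.ToType := by
    rw [← mk_ne_zero_iff, mk_ord_toType]; exact ht.ne_zero
  obtain ⟨x, hx1, hx2⟩ := diag D th h2 (L := t.ord.ToType)
    (by rw [mk_ord_toType]; exact h1 t ht2) (fun x Z => cfp (g x) Z ≤ s x) hg
    (fun x B Z hB hZ => (cfp_iUnion_le _ Z _ hZ).trans (hs3 x _ hB)) hth
  refine ⟨fun c i => k (x i) (f c (x i)) i, fun c i => hk1 _ _ _, fun c c' h h' => ?_⟩
  obtain ⟨x0, hx0⟩ := hf2 c c' h h'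
  have := hx2 (fun y => if x0 ≤ y then {i | k y (f c' y) i ≤ k y (f c y) i} else ∅) fun y => by
    split_ifs with hy
    · exact hk2 y _ _ (hx0 y hy) ((hf1 c' y).trans
        (lt_ord.2 (lt_succ_of_le ((le_max_left _ _).trans (hs1 y)))))
    · exact (cfp_empty _).trans (one_le_aleph0.trans (m1.trans (s1 y)))
  filter_upwards [this, hx1 x0] with i h3 h4
  rw [if_pos h4] at h3
  exact not_le.1 h3

end Pool.Agent.Lib.MP_2b97da_lc
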