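import Pool.Agent.Lib.MP_2b97da_lc.Defs
import Pool.Agent.Lib.MP_2b97da_lc.Main
import Pool.Agent.Lib.MP_2b97da_lc.Eub

/-! The two statements from the long chain and its exact upper bound. -/

namespace Pool.Agent.Lib.MP_2b97da_lc.St

open Cardinal Ordinal Set Order Filter

universe u

variable {K : Type u}

theorem isReg_iff {D : Filter K} {θ : Cardinal.{u}} : IsReg D θ ↔ Rg D θ := by
  refine ⟨fun ⟨A, h1, h2⟩ => ⟨_, A, mk_ord_toType θ, h1, h2⟩, fun ⟨T, A, h0, h1, h2⟩ => ?_⟩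
  obtain ⟨e⟩ : Nonempty (θ.ord.ToType ≃ T) := Cardinal.eq.1 ((mk_ord_toType θ).trans h0.symm)
  exact ⟨fun x => A (e x), fun x => h1 _, fun i => (h2 i).preimage e.injective.injOn⟩

theorem not_isReg (D : Filter K) [D.NeBot] : ¬ IsReg D (succ (max #K ℵ₀)) := fun h =>
  absurd (isReg_iff.1 h).le_max (not_le.2 (lt_succ _))

theorem rg_of_lt {D : Filter K} {s : Cardinal.{u}} (h : s < reg D) : Rg D s :=
  isReg_iff.1 (not_not.1 (notMem_of_lt_csInf' h))

theorem aleph0_le_reg (D : Filter K) [D.NeBot] : ℵ₀ ≤ reg D := by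
  have h : ¬ IsReg D (reg D) := csInf_mem (s := {θ | ¬ IsReg D θ}) ⟨_, not_isReg D⟩
  by_contra hc
  have : Finite (reg D).ord.ToType := by
    rw [← lt_aleph0_iff_finite, mk_ord_toType]
    exact not_le.1 hc
  exact h ⟨fun _ => univ, fun _ => univ_mem, fun _ => toFinite _⟩

theorem not_rg_star (D : Filter K) (U : Ultrafilter K) (h : (U : Filter K) ≤ D) :
    ¬ Rg (U : Filter K) (regStar D) := fun hr =>
  csInf_mem (s := {θ | ∀ U : Ultrafilter K, (∀ X ∈ D, X ∈ U) → ¬ IsReg (U : Filter K) θ})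
    ⟨_, fun _ _ => not_isReg _⟩ U (fun _ hX => h hX) (isReg_iff.2 hr)

theorem plus_eq (D : Filter K) (A : Set K) : plus D A = D ⊓ 𝓟 A := by
  rw [plus, generate_union]
  congr 1
  · exact le_antisymm (fun X hX => GenerateSets.basic hX) (le_generate_iff.2 subset_rfl)
  · simp [generate_eq_biInf]

theorem plus_neBot {D : Filter K} {A : Set K} (h : Positive D A) : (plus D A).NeBot := by
  rw [plus_eq, neBot_iff, Ne, inf_principal_eq_bot]
  exact h

theorem chain_of (D : Filter K) [D.NeBot] (hreg : regStar D = reg D) (l : K → Cardinal.{u})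
    {μ : Cardinal.{u}} (h2 : 2 ≤ μ) (hK : 2 ^ #K ≤ μ ^ ℵ₀) (hT : μ ^ ℵ₀ < supT D l) :
    ∃ A, Positive D A ∧ ∃ F : Ordinal.{u} → K → Ordinal.{u}, (∀ c i, F c i < (l i).ord) ∧
      ∀ c c', c < c' → c' < (succ (μ ^ ℵ₀)).ord → {i | F c i < F c' i} ∈ plus D A := by
  obtain ⟨c, ⟨A, hA, rfl, -⟩, h1⟩ := exists_lt_of_lt_csSup' hT
  obtain ⟨c, ⟨F, hF, rfl⟩, h3⟩ := exists_lt_of_lt_csSup' h1
  have := plus_neBot hA
  have hle : plus D A ≤ D := by
    rw [plus_eq]
    exact inf_le_left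
  refine ⟨A, hA, main (plus D A) (reg D) (aleph0_le_reg D) (fun s hs => ?_)
    (noPF_of_ultra _ _ (aleph0_le_reg D) fun U hU => hreg ▸ not_rg_star D U (hU.trans hle)) _
    (fun (t : F) i => val (t.1 i)) (fun _ _ => val_lt _) (fun t t' h => ?_) _ ?_ ?_ hK h3⟩
  · obtain ⟨T, B, e1, e2, e3⟩ := rg_of_lt hs
    exact ⟨T, B, e1, fun t => hle (e2 t), e3⟩
  · exact mem_of_superset (hF _ t.2 _ t'.2 fun e => h (Subtype.ext e)) fun i hi e =>
      hi (val_inj e)
  · exact (cantor _).le.trans (power_le_power_right h2)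
  · rw [← power_mul, aleph0_mul_aleph0]

theorem lt_depthP {P : Type u} (le : P → P → Prop) {c : Cardinal.{u}} (f : c.ord.ToType → P)
    (hf : ∀ a b, a < b → le (f a) (f b) ∧ f a ≠ f b) : c < depthP le := by
  have hne : {c : Cardinal.{u} | ¬ ∃ f : c.ord.ToType → P,
      ∀ a b, a < b → le (f a) (f b) ∧ f a ≠ f b}.Nonempty := by
    refine ⟨succ #P, fun ⟨g, hg⟩ => ?_⟩
    have := mk_le_of_injective (f := g) fun a b h => by
      by_contra hc
      rcases lt_or_gt_of_ne hc with h1 | h1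
      · exact (hg _ _ h1).2 h
      · exact (hg _ _ h1).2 h.symm
    rw [mk_ord_toType] at this
    exact absurd this (not_le.2 (lt_succ _))
  by_contra hc
  refine csInf_mem hne ?_
  have h1 : (depthP le).ord ≤ c.ord := ord_le_ord.2 (not_lt.1 hc)
  choose e he using fun a : (depthP le).ord.ToType => exists_val ((val_lt a).trans_le h1)
  exact ⟨fun a => f (e a), fun a b h => hf _ _ (by rwa [← val_lt_val, he, he, val_lt_val])⟩

theorem q2 (D : Filter K) (hD : ∅ ∉ D) (hreg : regStar D = reg D)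
    (B : K → Type u) [∀ i, BooleanAlgebra (B i)] (l : K → Cardinal.{u})
    (hB : ∀ i, l i < depthP fun x y : B i => x ≤ y) (μ : Cardinal.{u})
    (h2 : 2 ^ #K < μ ^ ℵ₀) (hT : μ ^ ℵ₀ < supT D l) : succ μ < depthP (rpLe D B) := by
  classical
  have : D.NeBot := neBot_iff.2 fun h => hD (empty_mem_iff_bot.2 h)
  have hμ : 2 ≤ μ := by
    by_contra hc
    have h1 : μ ≤ 1 := by
      by_contra h5
      exact hc (Cardinal.two_le_iff_one_lt.2 (not_le.1 h5))
    have h3 : μ ^ ℵ₀ ≤ 1 := (power_le_power_right h1).trans_eq (one_power)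
    have h4 : (1 : Cardinal.{u}) ≤ 2 ^ #K := Cardinal.one_le_iff_ne_zero.2 (power_ne_zero _ two_ne_zero)
    exact absurd (h3.trans h4) (not_le.2 h2)
  obtain ⟨A, hA, F, hF, hc⟩ := chain_of D hreg l hμ h2.le hT
  choose e he using fun i => not_not.1 (notMem_of_lt_csInf' (hB i))
  choose G hG using fun c i => exists_val (hF c i)
  have hle : (succ μ).ord ≤ (succ (μ ^ ℵ₀)).ord :=
    ord_le_ord.2 (succ_le_succ (self_le_power _ one_le_aleph0))
  let b : (succ μ).ord.ToType → ∀ i, B i := fun a i => if i ∈ A then e i (G (val a) i) else ⊥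
  refine lt_depthP _ (fun a => (b a : D.Product B)) fun a a' h => ?_
  have h1 := hc _ _ (val_lt_val.2 h) ((val_lt a').trans_le hle)
  rw [plus_eq, mem_inf_principal] at h1
  have h3 : ∀ i ∈ A, F (val a) i < F (val a') i → b a i ≤ b a' i ∧ b a i ≠ b a' i :=
    fun i hi hl => by
      simp only [b, if_pos hi]
      exact he i _ _ (by rwa [← val_lt_val, hG, hG])
  refine ⟨⟨_, _, rfl, rfl, mem_of_superset h1 fun i hi => ?_⟩, fun h4 => hA ?_⟩
  · by_cases h5 : i ∈ A
    · exact (h3 i h5 (hi h5)).1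
    · simp only [b, mem_ofPred_eq, if_neg h5, le_refl]
  · have h5 : ∀ᶠ i in D, b a i = b a' i := Quotient.exact h4
    exact mem_of_superset (inter_mem h1 h5) fun i hi h6 => (h3 i h6 (hi.1 h6)).2 hi.2

theorem exists_gt_all {τ : Cardinal.{u}} (hτ : τ.IsRegular) {J : Type u} (hJ : #J < τ)
    (x : J → τ.ord.ToType) : ∃ c, ∀ j, x j < c := by
  have h1 : (⨆ j, val (x j) + 1) < τ.ord :=
    iSup_lt_of_lt_cof (by rwa [hτ.cof_ord]) fun j => (isSuccLimit_ord hτ.1).succ_lt (val_lt _)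
  obtain ⟨c, hc⟩ := exists_val h1
  refine ⟨c, fun j => val_lt_val.1 ?_⟩
  rw [hc]
  exact (lt_add_one _).trans_le (Ordinal.le_iSup (fun j => val (x j) + 1) j)

theorem tcf_const (D : Filter K) {ρ : Cardinal.{u}} (hρ : ρ.IsRegular) (hK : #K < ρ) :
    IsTcf D (fun _ => ρ) ρ := by
  refine ⟨hρ, fun a _ => a, fun a b h => univ_mem' fun _ => h, fun g => ?_⟩
  obtain ⟨c, hc⟩ := exists_gt_all hρ hK g
  exact ⟨c, univ_mem' hc⟩

theorem tcf_of_mono (D : Filter K) {l : K → Cardinal.{u}} {τ : Cardinal.{u}} (hτ : τ.IsRegular)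
    (f : τ.ord.ToType → Pr l) (hm : ∀ a b, a < b → {i | f a i ≤ f b i} ∈ D)
    (hc : ∀ g, ∃ a, LtD D g (f a)) : IsTcf D l τ := by
  choose nx hnx using fun a => hc (f a)
  have step : ∀ (a : τ.ord.ToType) (p : ∀ b < a, τ.ord.ToType), ∃ c, a < c ∧
      ∀ b (hb : b < a), nx (p b hb) < c := fun a p => by
    obtain ⟨c, h⟩ := exists_gt_all hτ (J := Option (Iio a)) (by
      rw [mk_option]
      exact add_lt_of_lt hτ.1 (mk_Iio_toType_ord_lt a) (one_lt_aleph0.trans_le hτ.1))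
      fun t => t.elim a fun s => nx (p s.1 s.2)
    exact ⟨c, h none, fun b hb => h (some ⟨b, hb⟩)⟩
  choose G hG1 hG2 using step
  let n : τ.ord.ToType → τ.ord.ToType := wellFounded_lt.fix G
  have hn : ∀ a, n a = G a fun b _ => n b := fun a => wellFounded_lt.fix_eq G a
  refine ⟨hτ, fun a => f (n a), fun a b h => ?_, fun g => ?_⟩
  · have h1 : nx (n a) < n b := by
      rw [hn b]
      exact hG2 b (fun b _ => n b) a h
    exact mem_of_superset (inter_mem (hnx (n a)) (hm _ _ h1)) fun i hi =>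
      lt_of_lt_of_le (a := f (n a) i) hi.1 hi.2
  · obtain ⟨a, ha⟩ := hc g
    have h1 : a < n a := by
      rw [hn a]
      exact hG1 a _
    exact ⟨a, mem_of_superset (inter_mem ha (hm _ _ h1)) fun i hi =>
      lt_of_lt_of_le (a := g i) hi.1 hi.2⟩

theorem IsTcf.le_prod {D : Filter K} [D.NeBot] {l α : K → Cardinal.{u}} {τ : Cardinal.{u}}
    (h : IsTcf D l τ) (hl : ∀ i, l i ≤ α i) : τ ≤ Cardinal.prod α := by
  obtain ⟨-, f, h1, -⟩ := h
  have h2 : ∀ a b, a < b → f a ≠ f b := fun a b h e => by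
    obtain ⟨i, hi⟩ := Filter.nonempty_of_mem (h1 a b h)
    exact (e ▸ hi : f b i < f b i).false
  have := mk_le_of_injective (f := f) fun a b h => by
    by_contra hc
    rcases lt_or_gt_of_ne hc with h3 | h3
    · exact h2 _ _ h3 h
    · exact h2 _ _ h3 h.symm
  rw [mk_ord_toType] at this
  refine this.trans ?_
  rw [Pr, mk_pi]
  exact prod_le_prod _ _ fun i => (mk_ord_toType _).trans_le (hl i)

theorem le_supH {D : Filter K} {A : Set K} (hA : Positive D A) {l : K → Cardinal.{u}}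
    (hl : ∀ i, (l i).IsRegular) {τ : Cardinal.{u}} (h : IsTcf (plus D A) l τ) : τ ≤ supH D l := by
  have h1 : ∀ A, Positive D A → Cardinal.prod l ∈ upperBounds {τ | ∃ l' : K → Cardinal.{u},
      (∀ i, (l' i).IsRegular ∧ l' i ≤ l i) ∧ IsTcf (plus D A) l' τ} := by
    rintro A hA τ ⟨l', h2, h3⟩
    have := plus_neBot hA
    exact h3.le_prod fun i => (h2 i).2
  refine (le_csSup ⟨_, h1 A hA⟩ ⟨l, fun i => ⟨hl i, le_rfl⟩, h⟩).trans
    (le_csSup ⟨Cardinal.prod l, ?_⟩ ⟨A, hA, rfl⟩)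
  rintro c ⟨A, hA, rfl⟩
  exact csSup_le' (h1 A hA)

theorem tcf_of_eub (D : Filter K) {τ : Cardinal.{u}} (hτ : τ.IsRegular) (l : K → Cardinal.{u})
    (hl : ∀ i, ℵ₀ ≤ l i) (F : Ordinal.{u} → K → Ordinal.{u})
    (hinc : ∀ c c', c < c' → c' < τ.ord → {i | F c i < F c' i} ∈ D) (h : K → Ordinal.{u})
    (h1 : ∀ i, h i ≤ (l i).ord) (h2 : ∀ c < τ.ord, {i | F c i < h i} ∈ D)
    (h3 : ∀ g : K → Ordinal.{u}, {i | g i < h i} ∈ D → ∃ c < τ.ord, {i | g i < F c i} ∈ D) :
    ∃ l' : K → Cardinal.{u}, (∀ i, (l' i).IsRegular ∧ l' i ≤ l i) ∧ IsTcf D l' τ := by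
  classical
  have hlim : {i | IsSuccLimit (h i)} ∈ D := by
    have h0 := h2 0 (isSuccLimit_ord hτ.1).pos
    have : ∀ i, ∃ a, 0 < h i → a < h i ∧ (¬ IsSuccLimit (h i) → h i ≤ a + 1) := fun i => by
      rcases zero_or_succ_or_isSuccLimit (h i) with e | ⟨a, e⟩ | e
      · exact ⟨0, fun h4 => absurd e h4.ne'⟩
      · exact ⟨a, fun _ => ⟨e ▸ lt_succ a, fun _ => e.ge⟩⟩
      · exact ⟨0, fun h4 => ⟨h4, fun h5 => absurd e h5⟩⟩
    choose g hg using this
    obtain ⟨c, hc, h4⟩ := h3 g (mem_of_superset h0 fun i hi => (hg i (zero_le.trans_lt hi)).1)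
    refine mem_of_superset (inter_mem h4 (h2 c hc)) fun i hi => ?_
    by_contra h5
    exact absurd ((hg i (zero_le.trans_lt hi.2)).2 h5)
      (not_le.2 ((Order.add_one_le_iff.2 hi.1).trans_lt hi.2))
  let l' : K → Cardinal.{u} := fun i => if IsSuccLimit (h i) then (h i).cof else ℵ₀
  have hr : ∀ i, (l' i).IsRegular := fun i => by
    simp only [l']
    split_ifs with e
    exacts [isRegular_cof e, isRegular_aleph0]
  have hne : ∀ i, Nonempty (l' i).ord.ToType := fun i =>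
    ⟨(exists_val (isSuccLimit_ord (hr i).1).pos).choose⟩
  have he : ∀ i, ∃ e : (l' i).ord.ToType → Ordinal.{u}, IsSuccLimit (h i) →
      ∀ a < h i, ∃ t, a ≤ e t ∧ e t < h i := fun i => by
    by_cases e : IsSuccLimit (h i)
    · obtain ⟨e', he'⟩ := exists_cofinal (h i) (l' i).ord.ToType (by
        rw [mk_ord_toType]
        exact (if_pos e).ge)
      exact ⟨e', fun _ => he'⟩
    · exact ⟨fun _ => 0, fun h4 => absurd h4 e⟩
  choose e he using he
  have hp : ∀ i (a : Ordinal.{u}), ∃ t : (l' i).ord.ToType, IsSuccLimit (h i) → a < h i →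
      (a ≤ e i t ∧ e i t < h i) ∧ ∀ s, a ≤ e i s → e i s < h i → t ≤ s := fun i a => by
    by_cases h4 : IsSuccLimit (h i) ∧ a < h i
    · obtain ⟨t, h5, h6⟩ := wellFounded_lt.has_min {t | a ≤ e i t ∧ e i t < h i}
        (he i h4.1 a h4.2)
      exact ⟨t, fun _ _ => ⟨h5, fun s h7 h8 => not_lt.1 (h6 s ⟨h7, h8⟩)⟩⟩
    · exact ⟨(hne i).some, fun h5 h6 => absurd ⟨h5, h6⟩ h4⟩
  choose p hp using hp
  refine ⟨l', fun i => ⟨hr i, ?_⟩, tcf_of_mono D hτ (fun a i => p i (F (val a) i))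
    (fun a b hab => ?_) fun g => ?_⟩
  · simp only [l']
    split_ifs
    · exact (cof_le_card _).trans ((card_le_card (h1 i)).trans_eq (card_ord _))
    · exact hl i
  · filter_upwards [hlim, h2 _ (val_lt b), hinc _ _ (val_lt_val.2 hab) (val_lt b)] with i e1 e2 e3
    have e4 := (hp i _ e1 e2).1
    exact (hp i _ e1 (lt_trans e3 e2)).2 _ (le_trans (le_of_lt e3) e4.1) e4.2
  · let k : K → Ordinal.{u} := fun i => ⨆ t : Iic (g i), if e i t < h i then e i t else 0
    obtain ⟨c, hc, h4⟩ := h3 k (mem_of_superset hlim fun i hi => by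
      refine iSup_lt_of_lt_cof ?_ fun t => ?_
      · have e1 : l' i = (h i).cof := if_pos hi
        rw [← e1, ← Iio_insert]
        exact mk_insert_le.trans_lt (add_lt_of_lt (hr i).1 (mk_Iio_toType_ord_lt _)
          (one_lt_aleph0.trans_le (hr i).1))
      · split_ifs with e1
        exacts [e1, IsSuccLimit.pos hi])
    obtain ⟨a, rfl⟩ := exists_val hc
    refine ⟨a, ?_⟩
    filter_upwards [hlim, h2 _ hc, h4] with i e1 e2 e3
    by_contra e4
    have e5 := (hp i _ e1 e2).1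
    have e6 := Ordinal.le_iSup (fun t : Iic (g i) => if e i t < h i then e i t else 0)
      ⟨_, not_lt.1 e4⟩
    simp only [if_pos e5.2] at e6
    exact absurd (e5.1.trans e6) (not_le.2 e3)

theorem q1 (D : Filter K) (hD : ∅ ∉ D) (hreg : regStar D = reg D)
    (l : K → Cardinal.{u}) (hl : ∀ i, ℵ₀ ≤ l i) (h2 : ∀ i, 2 ^ #K ≤ l i) (μ : Cardinal.{u})
    (hT : μ ^ ℵ₀ < supT D l) :
    ∃ l' : K → Cardinal.{u}, (∀ i, (l' i).IsRegular ∧ l' i ≤ l i) ∧ μ < supH D l' := by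
  have : D.NeBot := neBot_iff.2 fun h => hD (empty_mem_iff_bot.2 h)
  rcases lt_or_ge μ (2 ^ #K) with h | h
  · have hr : (max ℵ₀ (succ (max μ #K))).IsRegular := by
      rcases lt_or_ge (max μ #K) ℵ₀ with h3 | h3
      · rw [max_eq_left (succ_le_of_lt h3)]
        exact isRegular_aleph0
      · rw [max_eq_right (h3.trans (le_succ _))]
        exact isRegular_succ h3
    have h3 : max μ #K < max ℵ₀ (succ (max μ #K)) := (lt_succ _).trans_le (le_max_right _ _)
    refine ⟨fun _ => max ℵ₀ (succ (max μ #K)), fun i => ⟨hr, max_le (hl i)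
      ((succ_le_of_lt (max_lt h (cantor _))).trans (h2 i))⟩, ((le_max_left _ _).trans_lt h3).trans_le
      (le_supH (A := univ) (by simp [Positive]) (fun _ => hr)
        (tcf_const _ hr ((le_max_right _ _).trans_lt h3)))⟩
  · have hK : 1 ≤ #K := Cardinal.one_le_iff_ne_zero.2 (mk_ne_zero_iff.2 (nonempty_of_neBot D))
    have hμ : 2 ≤ μ := (self_le_power _ hK).trans h
    have h3 : μ ≤ μ ^ ℵ₀ := self_le_power _ one_le_aleph0
    have h4 : 2 ^ ℵ₀ ≤ μ ^ ℵ₀ := power_le_power_right hμ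
    obtain ⟨A, hA, F, hF, hc⟩ := chain_of D hreg l hμ (h.trans h3) hT
    have hr : (succ (μ ^ ℵ₀)).IsRegular := isRegular_succ ((cantor _).le.trans h4)
    obtain ⟨g, e1, e2, e3⟩ := exists_eub (plus D A) _ hr (lt_succ_of_le (by
      rcases le_total #K ℵ₀ with h5 | h5
      · rwa [max_eq_right h5]
      · rw [max_eq_left h5]
        exact h.trans h3)) _ F hF hc
    obtain ⟨l', e4, e5⟩ := tcf_of_eub _ hr l hl F hc g e1 e2 e3
    exact ⟨l', e4, (lt_succ_of_le h3).trans_le (le_supH hA (fun i => (e4 i).1) e5)⟩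

end Pool.Agent.Lib.MP_2b97da_lc.St
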