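import Pool.Agent.Lib.MP_2b97da_lc.Base

/-! Scales, closed sequences and the counting lemma. -/

namespace Pool.Agent.Lib.MP_2b97da_lc

open Cardinal Ordinal Set Order

universe u

variable {I : Type u}

/-- all cofinalities are above `2 ^ #I` -/
def Big (b : I → Ordinal.{u}) : Prop := ∀ i, 2 ^ #I < (b i).cof

theorem exists_surj {S T : Type u} [Nonempty T] (h : #T ≤ #S) :
    ∃ r : S → T, Function.Surjective r := by
  obtain ⟨j⟩ : Nonempty (T ↪ S) := by rwa [← Cardinal.le_def]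
  exact ⟨Function.invFun j, Function.invFun_surjective j.injective⟩

theorem aleph0_le_two_pow [Infinite I] : ℵ₀ ≤ 2 ^ #I := (aleph0_le_mk I).trans (cantor _).le

variable {b : I → Ordinal.{u}}

theorem Big.pos (hb : Big b) (i : I) : 0 < b i := cof_pos.1 (zero_le.trans_lt (hb i))

theorem Big.bound (hb : Big b) {T : Type u} (F : T → I → Ordinal.{u}) (hF : ∀ t i, F t i < b i)
    (hT : #T ≤ 2 ^ #I) : ∃ h : I → Ordinal.{u}, (∀ i, h i < b i) ∧ ∀ t i, F t i ≤ h i :=
  ⟨fun i => ⨆ t, F t i, fun i => iSup_lt_of_lt_cof (hT.trans_lt (hb i)) fun t => hF t i,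
    fun t i => Ordinal.le_iSup (fun t => F t i) t⟩

variable [Infinite I]

theorem Big.lt_cfp (hb : Big b) {X : Set I} (hX : X.Nonempty) : 2 ^ #I < cfp b X := by
  obtain ⟨i, hi⟩ := hX
  exact (hb i).trans_le (cof_le_cfp b hi (one_lt_cof_iff.1
    (one_lt_aleph0.trans_le (aleph0_le_two_pow.trans (hb i).le))))

theorem Big.aleph0_le (hb : Big b) {X : Set I} (hX : X.Nonempty) : ℵ₀ ≤ cfp b X :=
  aleph0_le_two_pow.trans (hb.lt_cfp hX).le

/-- increasing and cofinal modulo the sets of smaller cofinality -/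
def IsScale (b : I → Ordinal.{u}) (X : Set I) (f : Ordinal.{u} → I → Ordinal.{u}) : Prop :=
  (∀ c i, f c i < b i) ∧
  (∀ c c', c < c' → c' < (cfp b X).ord → cfp b {i | i ∈ X ∧ f c' i ≤ f c i} < cfp b X) ∧
  ∀ h : I → Ordinal.{u}, (∀ i, h i < b i) →
    ∃ c < (cfp b X).ord, cfp b {i | i ∈ X ∧ f c i ≤ h i} < cfp b X

theorem Big.exists_scale (hb : Big b) {X : Set I} (hX : X.Nonempty) : ∃ f, IsScale b X f := by
  classical
  obtain ⟨F, hF⟩ := exists_wit' b X (cfp b X).ord.ToType (by simp)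
  obtain ⟨f, h1, h2, h3, h4⟩ := chain b X (fun i _ => hb i) (cfp b X) (hb.aleph0_le hX)
    (fun c i => if hc : ∃ t : (cfp b X).ord.ToType, val t = c then
      (if F hc.choose i < b i then F hc.choose i else 0) else 0)
    (fun c i _ => by
      split_ifs with h h'
      · exact h'
      · exact hb.pos i
      · exact hb.pos i)
  refine ⟨f, fun c i => ?_, h4, fun h hh => ?_⟩
  · by_cases hi : i ∈ X
    · exact h1 c i hi
    · rw [h2 c i hi]; exact hb.pos i
  · obtain ⟨t, ht⟩ := hF h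
    refine ⟨val t, val_lt t, (cfp_mono b ?_).trans_lt (h3 _ (val_lt t))⟩
    rintro i ⟨hi, hle⟩
    have hc : ∃ s : (cfp b X).ord.ToType, val s = val t := ⟨t, rfl⟩
    have e : hc.choose = t := val_inj hc.choose_spec
    obtain ⟨h5, h6⟩ := ht i hi (hh i)
    refine ⟨hi, ?_⟩
    simp only [dif_pos hc, e, if_pos h6]
    exact hle.trans h5

/-- the chosen scale -/
noncomputable def sc (b : I → Ordinal.{u}) (X : Set I) : Ordinal.{u} → I → Ordinal.{u} :=
  Classical.epsilon (IsScale b X)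

theorem Big.sc_spec (hb : Big b) {X : Set I} (hX : X.Nonempty) : IsScale b X (sc b X) :=
  Classical.epsilon_spec (hb.exists_scale hX)

theorem Big.up (hb : Big b) {X : Set I} (hX : X.Nonempty) {h : I → Ordinal.{u}}
    {c c' : Ordinal.{u}} (hc : cfp b {i | i ∈ X ∧ sc b X c i ≤ h i} < cfp b X) (hle : c ≤ c')
    (hc' : c' < (cfp b X).ord) : cfp b {i | i ∈ X ∧ sc b X c' i ≤ h i} < cfp b X := by
  rcases hle.eq_or_lt with rfl | hlt
  · exact hc
  · refine (cfp_mono b ?_).trans_lt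
      (cfp_union_lt b (hb.aleph0_le hX) hc ((hb.sc_spec hX).2.1 c c' hlt hc'))
    rintro i ⟨hi, h1⟩
    rcases le_total (sc b X c i) (h i) with h2 | h2
    · exact Or.inl ⟨hi, h2⟩
    · exact Or.inr ⟨hi, h1.trans h2⟩

theorem Big.lt_cof (hb : Big b) {X : Set I} (hX : X.Nonempty) : 2 ^ #I < (cfp b X).ord.cof := by
  refine (hb.lt_cfp hX).trans_le (not_lt.1 fun hlt => ?_)
  obtain ⟨e, he⟩ := exists_cofinal (cfp b X).ord (cfp b X).ord.cof.out (by simp)
  obtain ⟨h, h1, h2, h3⟩ := dir b X (fun i _ => hb i) (fun t => sc b X (e t))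
    (fun t i _ => (hb.sc_spec hX).1 _ i) (cfp b X) (by simpa using hlt)
  obtain ⟨c, hc, hs⟩ := (hb.sc_spec hX).2.2 h fun i => by
    by_cases hi : i ∈ X
    · exact h1 i hi
    · rw [h2 i hi]; exact hb.pos i
  obtain ⟨t, ht1, ht2⟩ := he c hc
  refine absurd ((cfp_mono b ?_).trans_lt
    (cfp_union_lt b (hb.aleph0_le hX) (hb.up hX hs ht1 ht2) (h3 t))) (lt_irrefl _)
  intro i hi
  rcases le_total (sc b X (e t) i) (h i) with h2 | h2
  · exact Or.inl ⟨hi, h2⟩
  · exact Or.inr ⟨hi, h2⟩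

/-- the first index where the scale passes `h` -/
noncomputable def gam (b h : I → Ordinal.{u}) (X : Set I) : Ordinal.{u} :=
  sInf {c | c < (cfp b X).ord ∧ cfp b {i | i ∈ X ∧ sc b X c i ≤ h i} < cfp b X}

theorem Big.gam_spec (hb : Big b) {X : Set I} (hX : X.Nonempty) {h : I → Ordinal.{u}}
    (hh : ∀ i, h i < b i) : gam b h X < (cfp b X).ord ∧
      cfp b {i | i ∈ X ∧ sc b X (gam b h X) i ≤ h i} < cfp b X :=
  csInf_mem (s := {c | c < (cfp b X).ord ∧ cfp b {i | i ∈ X ∧ sc b X c i ≤ h i} < cfp b X})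
    ((hb.sc_spec hX).2.2 h hh)

theorem Big.gam_mono (hb : Big b) {X : Set I} (hX : X.Nonempty) {h h' : I → Ordinal.{u}}
    (hh : ∀ i, h' i < b i) (hle : ∀ i, h i ≤ h' i) : gam b h X ≤ gam b h' X :=
  csInf_le' ⟨(hb.gam_spec hX hh).1, lt_of_le_of_lt
    (cfp_mono b fun i hi => by exact ⟨hi.1, hi.2.trans (hle i)⟩) (hb.gam_spec hX hh).2⟩

theorem Big.lt_gam (hb : Big b) {X : Set I} (hX : X.Nonempty) {h : I → Ordinal.{u}}
    (hh : ∀ i, h i < b i) {c : Ordinal.{u}} (hc : c < (cfp b X).ord)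
    (hle : ∀ i ∈ X, sc b X c i ≤ h i) : c < gam b h X := by
  by_contra hn
  exact absurd (lt_of_le_of_lt (cfp_mono b (X := X) fun i hi => by exact ⟨hi, hle i hi⟩)
    (hb.up hX (hb.gam_spec hX hh).2 (not_lt.1 hn) hc)) (lt_irrefl _)

/-- the index order of closed sequences -/
abbrev Rho (I : Type u) : Type u := (succ #I).ord.ToType

omit [Infinite I] in
theorem mk_Rho_le : #(Rho I) ≤ 2 ^ #I := by
  rw [mk_ord_toType]; exact succ_le_of_lt (cantor _)

theorem Rho_bdd (f : I → Rho I) : ∃ a, ∀ i, f i < a := by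
  have hr := isRegular_succ (aleph0_le_mk I)
  have : (⨆ i, val (f i) + 1) < (succ #I).ord :=
    iSup_lt_of_lt_cof (by rw [hr.cof_ord]; exact lt_succ _) fun i =>
      (isSuccLimit_ord hr.aleph0_le).succ_lt (val_lt _)
  obtain ⟨a, ha⟩ := exists_val this
  refine ⟨a, fun i => val_lt_val.1 ?_⟩
  rw [ha]
  exact (lt_add_one _).trans_le (Ordinal.le_iSup (fun i => val (f i) + 1) i)

theorem Rho_nomax (a : Rho I) : ∃ c, a < c := by
  obtain ⟨c, hc⟩ := Rho_bdd (I := I) fun _ => a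
  exact ⟨c, hc (Classical.arbitrary I)⟩

/-- closed sequences -/
structure Clo (b : I → Ordinal.{u}) (h : Rho I → I → Ordinal.{u}) : Prop where
  lt : ∀ a i, h a i < b i
  mono : ∀ a c, a ≤ c → ∀ i, h a i ≤ h c i
  dom : ∀ a c, a < c → ∀ X : Set I, X.Nonempty → ∀ i ∈ X, sc b X (gam b (h a) X) i ≤ h c i

/-- pointwise supremum -/
noncomputable def top (h : Rho I → I → Ordinal.{u}) (i : I) : Ordinal.{u} := ⨆ a, h a i

/-- supremum of the indices -/
noncomputable def gs (b : I → Ordinal.{u}) (h : Rho I → I → Ordinal.{u}) (X : Set I) :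
    Ordinal.{u} := ⨆ a, gam b (h a) X

omit [Infinite I] in
theorem le_top' (h : Rho I → I → Ordinal.{u}) (a : Rho I) (i : I) : h a i ≤ top h i :=
  Ordinal.le_iSup (fun a => h a i) a

omit [Infinite I] in
theorem Clo.top_lt (hb : Big b) {h : Rho I → I → Ordinal.{u}} (H : Clo b h) (i : I) :
    top h i < b i :=
  iSup_lt_of_lt_cof (mk_Rho_le.trans_lt (hb i)) fun a => H.lt a i

theorem Clo.gs_lt (hb : Big b) {h : Rho I → I → Ordinal.{u}} (H : Clo b h) {X : Set I}
    (hX : X.Nonempty) : gs b h X < (cfp b X).ord :=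
  iSup_lt_of_lt_cof (mk_Rho_le.trans_lt (hb.lt_cof hX)) fun a => (hb.gam_spec hX (H.lt a)).1

theorem Clo.uniq (hb : Big b) {h h' : Rho I → I → Ordinal.{u}} (H : Clo b h) (H' : Clo b h')
    {X : Set I} (hX : X.Nonempty) (hle : gs b h X ≤ gs b h' X) :
    cfp b {i | i ∈ X ∧ top h' i < top h i} < cfp b X := by
  have : ∀ i, ∃ a, top h' i < top h i → top h' i < h a i := fun i => by
    by_cases hi : top h' i < top h i
    · obtain ⟨a, ha⟩ := Ordinal.lt_iSup_iff.1 hi
      exact ⟨a, fun _ => ha⟩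
    · obtain ⟨a, -⟩ := Rho_bdd (I := I) fun i => (isEmpty_or_nonempty (Rho I)).elim
        (fun he => by
          have := mk_eq_zero_iff.2 he
          rw [mk_ord_toType] at this
          exact absurd this (succ_ne_zero _)) (fun hn => hn) |>.some
      exact ⟨a, fun hh => absurd hh hi⟩
  choose a ha using this
  obtain ⟨a0, ha0⟩ := Rho_bdd a
  obtain ⟨a1, ha1⟩ := Rho_nomax a0
  have h1 : gam b (h a0) X < gam b (h a1) X :=
    hb.lt_gam hX (H.lt a1) (hb.gam_spec hX (H.lt a0)).1 (H.dom a0 a1 ha1 X hX)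
  have h2 : gam b (h a0) X < gs b h' X :=
    (h1.trans_le (Ordinal.le_iSup (fun a => gam b (h a) X) a1)).trans_le hle
  obtain ⟨c, hc⟩ := Ordinal.lt_iSup_iff.1 h2
  obtain ⟨c1, hc1⟩ := Rho_nomax c
  refine (cfp_mono b ?_).trans_lt
    (hb.up hX (hb.gam_spec hX (H.lt a0)).2 hc.le (hb.gam_spec hX (H'.lt c)).1)
  rintro i ⟨hi, hlt⟩
  exact ⟨hi, ((H'.dom c c1 hc1 X hX i hi).trans (le_top' h' c1 i)).trans
    ((ha i hlt).le.trans (H.mono _ _ (ha0 i).le i))⟩

open Classical in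
/-- a representative for the index `c` -/
noncomputable def rep (b : I → Ordinal.{u}) (X : Set I) (c : Ordinal.{u}) : I → Ordinal.{u} :=
  if H : ∃ h, Clo b h ∧ gs b h X = c then top H.choose else fun _ => 0

omit [Infinite I] in
theorem Big.rep_lt (hb : Big b) (X : Set I) (c : Ordinal.{u}) (i : I) : rep b X c i < b i := by
  unfold rep
  split_ifs with H
  · exact H.choose_spec.1.top_lt hb i
  · exact hb.pos i

/-- where the supremum differs from the representative -/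
def nxt (b : I → Ordinal.{u}) (h : Rho I → I → Ordinal.{u}) (X : Set I) : Set I :=
  {i | i ∈ X ∧ top h i ≠ rep b X (gs b h X) i}

theorem Clo.nxt_lt (hb : Big b) {h : Rho I → I → Ordinal.{u}} (H : Clo b h) {X : Set I}
    (hX : X.Nonempty) : cfp b (nxt b h X) < cfp b X := by
  have E : ∃ h', Clo b h' ∧ gs b h' X = gs b h X := ⟨h, H, rfl⟩
  obtain ⟨H', e⟩ := E.choose_spec
  refine (cfp_mono b ?_).trans_lt (cfp_union_lt b (hb.aleph0_le hX)
    (H.uniq hb H' hX e.ge) (H'.uniq hb H hX e.le))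
  rintro i ⟨hi, hne⟩
  rw [rep, dif_pos E] at hne
  rcases lt_or_gt_of_ne hne with h1 | h1
  · exact Or.inr ⟨hi, h1⟩
  · exact Or.inl ⟨hi, h1⟩

/-- COUNTING: at most `#S` suprema of closed sequences on a set of cofinality at most `#S` -/
theorem Big.count (hb : Big b) (S : Type u) (hS : 2 ^ #I ≤ #S) (X : Set I) (hX : cfp b X ≤ #S) :
    ∃ e : S → I → Ordinal.{u}, ∀ h, Clo b h → ∃ t, ∀ i ∈ X, top h i = e t i := by
  classical
  have hS0 : ℵ₀ ≤ #S := aleph0_le_two_pow.trans hS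
  have : Infinite S := infinite_iff.2 hS0
  induction hn : cfp b X using WellFoundedLT.induction generalizing X with
  | ind n ih =>
  subst hn
  rcases X.eq_empty_or_nonempty with rfl | hne
  · exact ⟨fun _ _ => 0, fun _ _ => ⟨Classical.arbitrary S, by simp⟩⟩
  have : ∀ Y : Set I, ∃ e : S → I → Ordinal.{u}, cfp b Y < cfp b X →
      ∀ h, Clo b h → ∃ t, ∀ i ∈ Y, top h i = e t i := fun Y => by
    by_cases hY : cfp b Y < cfp b X
    · obtain ⟨e, he⟩ := ih _ hY Y (hY.le.trans hX) rfl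
      exact ⟨e, fun _ => he⟩
    · exact ⟨fun _ _ => 0, fun hh => absurd hh hY⟩
  choose e he using this
  have : Nonempty (cfp b X).ord.ToType := by
    rw [← mk_ne_zero_iff, mk_ord_toType]; exact (zero_lt_one.trans_le (one_le_cfp b X)).ne'
  obtain ⟨r, hr⟩ := exists_surj (S := S) (T := (cfp b X).ord.ToType × Set I × S) (by
    simp only [mk_prod, Cardinal.lift_id, mk_ord_toType, mk_set]
    exact (mul_le_mul' hX ((mul_le_mul' hS le_rfl).trans (mul_eq_self hS0).le)).trans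
      (mul_eq_self hS0).le)
  refine ⟨fun s i => if i ∈ (r s).2.1 then e (r s).2.1 (r s).2.2 i else rep b X (val (r s).1) i,
    fun h H => ?_⟩
  obtain ⟨t, ht⟩ := he _ (H.nxt_lt hb hne) h H
  obtain ⟨c, hc⟩ := exists_val (H.gs_lt hb hne)
  obtain ⟨s, hs⟩ := hr (c, nxt b h X, t)
  refine ⟨s, fun i hi => ?_⟩
  simp only [hs]
  split_ifs with h1
  · exact ht i h1
  · rw [hc]
    by_contra h2
    exact h1 ⟨hi, h2⟩

end Pool.Agent.Lib.MP_2b97da_lc
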