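import Pool.Agent.Lib.MP_2b97da_lc.Scale

/-! A long chain modulo the bounded sets below a singular cardinal of uncountable cofinality. -/

namespace Pool.Agent.Lib.MP_2b97da_lc

open Cardinal Ordinal Set Order

universe u

variable {I : Type u} [Infinite I] {a : I → Ordinal.{u}}

/-- the cofinalities along a sequence of sets -/
noncomputable def tau (a : I → Ordinal.{u}) (Xs : I → Set I) (x : I) : Ordinal.{u} :=
  (cfp a (Xs x)).ord

theorem Big.of_tau (ha : Big a) {Xs : I → Set I} (h : ∀ x, (Xs x).Nonempty) : Big (tau a Xs) :=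
  fun x => ha.lt_cof (h x)

/-- closed on two layers -/
def Clo2 (a : I → Ordinal.{u}) (h : Rho I → I → Ordinal.{u}) : Prop :=
  Clo a h ∧ ∀ Xs : I → Set I, (∀ x, (Xs x).Nonempty) →
    Clo (tau a Xs) fun r x => gam a (h r) (Xs x)

theorem mk_fun_set : #(I → Set I) ≤ 2 ^ #I := by
  simp only [mk_pi, prod_const, Cardinal.lift_id, mk_set]
  rw [← power_mul, mul_eq_self (aleph0_le_mk I)]

theorem Big.exists_clo2 (ha : Big a) (h0 : I → Ordinal.{u}) (hh : ∀ i, h0 i < a i) :
    ∃ h, Clo2 a h ∧ ∀ i, h0 i ≤ top h i := by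
  classical
  have m0 : ℵ₀ ≤ 2 ^ #I := aleph0_le_two_pow
  let N := {X : Set I // X.Nonempty}
  have hN : #N ≤ 2 ^ #I := (mk_subtype_le _).trans (by simp)
  have hIN : #(I → N) ≤ 2 ^ #I :=
    (mk_le_of_injective (f := fun (f : I → N) x => (f x).1)
      fun f g e => funext fun x => Subtype.ext (congrFun e x)).trans mk_fun_set
  let P := {h : I → Ordinal.{u} // ∀ i, h i < a i}
  let Q : P → P → Prop := fun p q => (∀ i, p.1 i ≤ q.1 i) ∧
    (∀ (X : N) i, sc a X.1 (gam a p.1 X.1) i ≤ q.1 i) ∧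
    ∀ (Xs : I → N) (Y : Set I) (x : I) i, sc a (Xs x).1
      (sc (tau a fun x => (Xs x).1) Y
        (gam (tau a fun x => (Xs x).1) (fun x => gam a p.1 (Xs x).1) Y) x) i ≤ q.1 i
  have psi : ∀ p : P, ∃ q : P, Q p q := fun p => by
    obtain ⟨q, hq1, hq2⟩ := ha.bound (T := Option (N ⊕ (I → N) × Set I × I))
      (fun t => t.elim p.1 (Sum.elim (fun X => sc a X.1 (gam a p.1 X.1)) fun z =>
        sc a (z.1 z.2.2).1 (sc (tau a fun x => (z.1 x).1) z.2.1
          (gam (tau a fun x => (z.1 x).1) (fun x => gam a p.1 (z.1 x).1) z.2.1) z.2.2)))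
      (by rintro (_ | X | z) i
          · exact p.2 i
          · exact (ha.sc_spec X.2).1 _ i
          · exact (ha.sc_spec (z.1 z.2.2).2).1 _ i)
      (by simp only [mk_option, mk_sum, mk_prod, Cardinal.lift_id, mk_set]
          refine add_le_of_le m0 (add_le_of_le m0 hN ?_) (one_le_aleph0.trans m0)
          exact (mul_le_mul' hIN ((mul_le_mul' le_rfl (cantor _).le).trans
            (mul_eq_self m0).le)).trans (mul_eq_self m0).le)
    exact ⟨⟨q, hq1⟩, hq2 none, fun X => hq2 (some (.inl X)),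
      fun Xs Y x => hq2 (some (.inr (Xs, Y, x)))⟩
  choose ψ hψ using psi
  have step : ∀ (r : Rho I) (p : ∀ s < r, P), ∃ q : P, (∀ i, h0 i ≤ q.1 i) ∧
      ∀ s (hs : s < r) i, (ψ (p s hs)).1 i ≤ q.1 i := fun r p => by
    obtain ⟨q, hq1, hq2⟩ := ha.bound (T := Option (Iio r))
      (fun t => t.elim h0 fun s => (ψ (p s.1 s.2)).1)
      (by rintro (_ | s) i
          · exact hh i
          · exact (ψ _).2 i)
      (by rw [mk_option]
          exact add_le_of_le m0 ((mk_subtype_le _).trans mk_Rho_le) (one_le_aleph0.trans m0))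
    exact ⟨⟨q, hq1⟩, hq2 none, fun s hs => hq2 (some ⟨s, hs⟩)⟩
  choose G hG using step
  let f : Rho I → P := wellFounded_lt.fix G
  have hf : ∀ c, f c = G c fun b _ => f b := fun c => wellFounded_lt.fix_eq G c
  have k0 : ∀ r i, h0 i ≤ (f r).1 i := fun r => by rw [hf r]; exact (hG r _).1
  have k1 : ∀ s r, s < r → ∀ i, (ψ (f s)).1 i ≤ (f r).1 i := fun s r h => by
    rw [hf r]; exact (hG r _).2 s h
  have k2 : ∀ s r, s ≤ r → ∀ i, (f s).1 i ≤ (f r).1 i := fun s r h i => by
    rcases h.eq_or_lt with rfl | h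
    · exact le_rfl
    · exact ((hψ (f s)).1 i).trans (k1 s r h i)
  refine ⟨fun r => (f r).1, ⟨⟨fun r => (f r).2, k2, fun s r h X hX i _ =>
    ((hψ (f s)).2.1 ⟨X, hX⟩ i).trans (k1 s r h i)⟩, fun Xs hXs =>
    ⟨fun r x => (ha.gam_spec (hXs x) (f r).2).1,
      fun s r h x => ha.gam_mono (hXs x) (f r).2 (k2 s r h), fun s r h Y hY x _ => ?_⟩⟩,
    fun i => ?_⟩
  · exact (ha.lt_gam (hXs x) (f r).2 (((ha.of_tau hXs).sc_spec hY).1 _ x) fun i _ =>
      ((hψ (f s)).2.2 (fun x => ⟨Xs x, hXs x⟩) Y x i).trans (k1 s r h i)).le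
  · have : Nonempty (Rho I) := by
      rw [← mk_ne_zero_iff, mk_ord_toType]; exact succ_ne_zero _
    exact (k0 this.some i).trans (le_top' (fun r => (f r).1) _ i)

/-- exact depth of the iteration of `nxt` -/
def Dep (a : I → Ordinal.{u}) (h : Rho I → I → Ordinal.{u}) : ℕ → Set I → Prop
  | 0, X => X = ∅
  | n + 1, X => X.Nonempty ∧ Dep a h n (nxt a h X)

theorem Clo.exists_dep (ha : Big a) {h : Rho I → I → Ordinal.{u}} (H : Clo a h) (X : Set I) :
    ∃ n, Dep a h n X := by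
  induction hn : cfp a X using WellFoundedLT.induction generalizing X with
  | ind n ih =>
  subst hn
  rcases X.eq_empty_or_nonempty with rfl | hne
  · exact ⟨0, rfl⟩
  · obtain ⟨n, hn⟩ := ih _ (H.nxt_lt ha hne) _ rfl
    exact ⟨n + 1, hne, hn⟩

variable [LinearOrder I]

/-- unbounded -/
def Unb (c : Set I) : Prop := ∀ x, ∃ y ∈ c, x ≤ y

theorem Big.claim (ha : Big a) (nu : Cardinal.{u}) (S : Type u) (hS : 2 ^ #I ≤ #S)
    (h1 : ∀ x, cfp a {x} < nu)
    (H : ∀ b : I → Ordinal.{u}, Big b → (∀ x, b x < nu.ord) → ∀ c : Set I, Unb c →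
      ∃ c' ⊆ c, Unb c' ∧ cfp b c' ≤ #S) (n : ℕ) :
    ∀ c : Set I, Unb c → ∀ Xs : I → Set I, (∀ x, cfp a (Xs x) < nu) →
      ∃ e : S → I → Ordinal.{u}, (∀ t i, e t i < a i) ∧ ∀ h, Clo2 a h →
        (∀ x ∈ c, Dep a h n (Xs x)) →
        ∃ t, ∃ c' ⊆ c, Unb c' ∧ ∀ x ∈ c', ∀ i ∈ Xs x, top h i ≤ e t i := by
  classical
  have hS0 : ℵ₀ ≤ #S := aleph0_le_two_pow.trans hS
  have : Infinite S := infinite_iff.2 hS0
  induction n with
  | zero =>
    intro c hc Xs _
    refine ⟨fun _ _ => 0, fun _ i => ha.pos i, fun h _ hd =>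
      ⟨Classical.arbitrary S, c, Subset.rfl, hc, fun x hx i hi => ?_⟩⟩
    rw [show Xs x = ∅ from hd x hx] at hi
    exact hi.elim
  | succ n ih =>
    intro c hc Xs hXs
    let Xt : I → Set I := fun x => if (Xs x).Nonempty then Xs x else {x}
    have t1 : ∀ x, (Xt x).Nonempty := fun x => by
      simp only [Xt]
      split_ifs with h
      · exact h
      · exact singleton_nonempty x
    have t2 : ∀ x, cfp a (Xt x) < nu := fun x => by
      simp only [Xt]
      split_ifs with h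
      · exact hXs x
      · exact h1 x
    obtain ⟨c1, hc1, hu1, hs1⟩ := H _ (ha.of_tau t1) (fun x => ord_lt_ord.2 (t2 x)) c hc
    obtain ⟨d, hd⟩ := (ha.of_tau t1).count S hS c1 hs1
    choose e he1 he2 using fun Ys : I → Set I =>
      ih c1 hu1 (fun x => Ys x ∩ Xt x) fun x => (cfp_mono a inter_subset_right).trans_lt (t2 x)
    have : ∀ z : S × (I → Set I) × S, ∃ k : I → Ordinal.{u}, (∀ i, k i < a i) ∧
        (∀ i, e z.2.1 z.2.2 i ≤ k i) ∧ ∀ x i, rep a (Xt x) (d z.1 x) i ≤ k i := fun z => by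
      obtain ⟨k, hk1, hk2⟩ := ha.bound (T := Option I)
        (fun t => t.elim (e z.2.1 z.2.2) fun x => rep a (Xt x) (d z.1 x))
        (by rintro (_ | x) i
            · exact he1 _ _ i
            · exact ha.rep_lt _ _ i)
        (by rw [mk_option]
            exact add_le_of_le aleph0_le_two_pow (cantor _).le
              (one_le_aleph0.trans aleph0_le_two_pow))
      exact ⟨k, hk1, hk2 none, fun x => hk2 (some x)⟩
    choose k hk1 hk2 hk3 using this
    obtain ⟨r, hr⟩ := exists_surj (S := S) (T := S × (I → Set I) × S) (by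
      rw [mk_prod, mk_prod]
      simp only [Cardinal.lift_id]
      exact (mul_le_mul' le_rfl ((mul_le_mul' (mk_fun_set.trans hS) le_rfl).trans
        (mul_eq_self hS0).le)).trans (mul_eq_self hS0).le)
    refine ⟨fun s => k (r s), fun s => hk1 _, fun h hh hdep => ?_⟩
    have e1 : ∀ x ∈ c, Xt x = Xs x := fun x hx => if_pos (hdep x hx).1
    have e2 : ∀ x, nxt a h (Xt x) ∩ Xt x = nxt a h (Xt x) := fun x =>
      inter_eq_left.2 fun i hi => hi.1
    obtain ⟨s1, hs1⟩ := hd _ (hh.2 Xt t1)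
    obtain ⟨s2, c2, hc2, hu2, hs2⟩ := he2 (fun x => nxt a h (Xt x)) h hh fun x hx => by
      rw [e2, e1 x (hc1 hx)]; exact (hdep x (hc1 hx)).2
    obtain ⟨s, hs⟩ := hr (s1, fun x => nxt a h (Xt x), s2)
    refine ⟨s, c2, hc2.trans hc1, hu2, fun x hx i hi => ?_⟩
    rw [← e1 x (hc1 (hc2 hx))] at hi
    simp only [hs]
    by_cases hn : i ∈ nxt a h (Xt x)
    · exact (hs2 x hx i ⟨hn, hi⟩).trans (hk2 (s1, fun x => nxt a h (Xt x), s2) i)
    · have e3 : top h i = rep a (Xt x) (gs a h (Xt x)) i := by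
        by_contra h2
        exact hn ⟨hi, h2⟩
      have e4 : gs a h (Xt x) = d s1 x := hs1 x (hc2 hx)
      rw [e3, e4]
      exact hk3 (s1, fun x => nxt a h (Xt x), s2) x i

theorem Big.cfp_le (ha : Big a) (nu : Cardinal.{u}) (S : Type u) (hS : 2 ^ #I ≤ #S)
    (h1 : ∀ x, cfp a (Iic x) < nu) (hI : ∀ f : ℕ → I, ∃ y, ∀ n, f n ≤ y)
    (H : ∀ b : I → Ordinal.{u}, Big b → (∀ x, b x < nu.ord) → ∀ c : Set I, Unb c →
      ∃ c' ⊆ c, Unb c' ∧ cfp b c' ≤ #S) : cfp a univ ≤ #S := by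
  classical
  have hS0 : ℵ₀ ≤ #S := aleph0_le_two_pow.trans hS
  have cl := ha.claim nu S hS
    (fun x => (cfp_mono a (singleton_subset_iff.2 self_mem_Iic)).trans_lt (h1 x)) H
  choose e he1 he2 using fun (n : ℕ) (c : {c : Set I // Unb c}) => cl n c.1 c.2 Iic h1
  refine (cfp_le_mk (T := ULift.{u} ℕ × {c : Set I // Unb c} × S)
    (fun z => e z.1.down z.2.1 z.2.2) fun h0 => ?_).trans ?_
  · obtain ⟨h, hh, hle⟩ := ha.exists_clo2 (fun i => if h0 i < a i then h0 i else 0) fun i => by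
      split_ifs with h
      · exact h
      · exact ha.pos i
    choose n hn using fun x => hh.1.exists_dep ha (Iic x)
    have : ∃ m, Unb {x | n x = m} := by
      by_contra hc
      have : ∀ m, ∃ x, ∀ y, n y = m → ¬ x ≤ y := fun m => by
        by_contra h2
        refine hc ⟨m, fun x => ?_⟩
        by_contra h3
        exact h2 ⟨x, fun y hy hxy => h3 ⟨y, hy, hxy⟩⟩
      choose x hx using this
      obtain ⟨y, hy⟩ := hI x
      exact hx _ y rfl (hy _)
    obtain ⟨m, hm⟩ := this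
    obtain ⟨t, c', -, hu, ht⟩ := he2 m ⟨_, hm⟩ h hh fun x hx => by
      rw [← show n x = m from hx]; exact hn x
    refine ⟨(⟨m⟩, ⟨_, hm⟩, t), fun i _ hi => ⟨?_, he1 _ _ _ i⟩⟩
    obtain ⟨y, hy, hiy⟩ := hu i
    have := hle i
    simp only [if_pos hi] at this
    exact this.trans (ht y hy i hiy)
  · rw [mk_prod, mk_prod]
    simp only [Cardinal.lift_id, mk_uLift, mk_nat, lift_aleph0]
    exact (mul_le_mul' hS0 ((mul_le_mul' (((mk_subtype_le _).trans (by simp)).trans hS)
      le_rfl).trans (mul_eq_self hS0).le)).trans (mul_eq_self hS0).le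

omit [Infinite I] [LinearOrder I] in
/-- `ω` steps of approximation from above name every function -/
theorem pow_le_of_cfp (nu chi : Cardinal.{u}) (hcf : nu.ord.cof ≤ #I) (h2 : #I ^ #I ≤ chi)
    (h3 : 2 ^ #I ≤ chi) (hi : ℵ₀ ≤ chi) (hω : chi ^ ℵ₀ ≤ chi)
    (H : ∀ g : I → Ordinal.{u}, (∀ x, g x < nu.ord) → cfp g univ ≤ chi) : nu ^ #I ≤ chi := by
  classical
  obtain ⟨e, he⟩ := exists_cofinal nu.ord I hcf
  let P := {g : I → Ordinal.{u} // ∀ x, g x < nu.ord}
  choose W hW using fun g : P => exists_wit' g.1 univ chi.out (by simpa using H g.1 g.2)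
  let stp : P → Set I × chi.out → P := fun g c =>
    ⟨fun i => if i ∈ c.1 then min (W g c.2 i) (g.1 i) else g.1 i, fun i => by
      dsimp only
      split_ifs
      · exact (min_le_right _ _).trans_lt (g.2 i)
      · exact g.2 i⟩
  choose w hw using hW
  let cd : (I → Ordinal.{u}) → P → Set I × chi.out := fun f g => ({i | f i < g.1 i}, w g f)
  have : ∀ (f : I → nu.ord.ToType) i, ∃ z, val (f i) ≤ e z ∧ e z < nu.ord := fun f i =>
    he _ (val_lt _)
  choose z hz1 hz2 using this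
  let G : (I → nu.ord.ToType) → ℕ → P := fun f n =>
    (fun g => stp g (cd (fun i => val (f i)) g))^[n] ⟨fun i => e (z f i), hz2 f⟩
  have Gs : ∀ f n, G f (n + 1) = stp (G f n) (cd (fun i => val (f i)) (G f n)) := fun f n =>
    Function.iterate_succ_apply' _ _ _
  have k1 : ∀ f n i, val (f i) < (G f n).1 i →
      val (f i) ≤ (G f (n + 1)).1 i ∧ (G f (n + 1)).1 i < (G f n).1 i := fun f n i h => by
    obtain ⟨h4, h5⟩ := hw (G f n) (fun i => val (f i)) i (mem_univ i) h
    rw [Gs]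
    simp only [stp, cd, mem_ofPred_eq, if_pos h, min_eq_left h5.le]
    exact ⟨h4, h5⟩
  have k2 : ∀ f n i, val (f i) ≤ (G f n).1 i := fun f n i => by
    induction n with
    | zero => exact hz1 f i
    | succ n ih =>
      rcases ih.eq_or_lt with h | h
      · rw [Gs]
        simp only [stp, cd, mem_ofPred_eq, if_neg h.not_lt]
        exact ih
      · exact (k1 f n i h).1
  have k3 : ∀ f i, ∃ n, (G f n).1 i ≤ val (f i) := fun f i => by
    by_contra hc
    obtain ⟨n, hn⟩ := WellFounded.not_rel_apply_succ (r := fun x y : Ordinal.{u} => x < y)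
      fun n => (G f n).1 i
    exact hn (k1 f n i (not_le.1 fun h => hc ⟨n, h⟩)).2
  have inj : Function.Injective fun f : I → nu.ord.ToType =>
      (z f, fun n : ULift.{u} ℕ => cd (fun i => val (f i)) (G f n.down)) := fun f f' h => by
    have e1 : z f = z f' := congrArg Prod.fst h
    have e2 : ∀ n, cd (fun i => val (f i)) (G f n) = cd (fun i => val (f' i)) (G f' n) :=
      fun n => congrFun (congrArg Prod.snd h) ⟨n⟩
    have e3 : ∀ n, G f n = G f' n := fun n => by
      induction n with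
      | zero => exact Subtype.ext (funext fun i => congrArg e (congrFun e1 i))
      | succ n ih => rw [Gs, Gs, e2, ih]
    funext i
    obtain ⟨n, hn⟩ := k3 f i
    obtain ⟨n', hn'⟩ := k3 f' i
    exact val_inj (le_antisymm ((k2 f n' i).trans (e3 n' ▸ hn')) ((k2 f' n i).trans (e3 n ▸ hn)))
  have := mk_le_of_injective inj
  simp only [mk_pi, prod_const, Cardinal.lift_id, mk_ord_toType, mk_prod, mk_set, mk_out, mk_uLift,
    mk_nat, lift_aleph0] at this
  exact this.trans ((mul_le_mul' h2 ((power_le_power_right ((mul_le_mul' h3 le_rfl).trans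
    (mul_eq_self hi).le)).trans hω)).trans (mul_eq_self hi).le)

theorem star (t nu chi : Cardinal.{u}) (ht : t.IsRegular) (ht1 : ℵ₀ < t) (hcf : nu.ord.cof = t)
    (h2 : 2 ^ t < nu) (hle : nu ≤ chi) (hp : ∀ a < nu, a ^ t < nu) (hω : chi ^ ℵ₀ ≤ chi)
    (hbig : chi < nu ^ t) :
    ∃ (b : t.ord.ToType → Ordinal.{u}) (f : Ordinal.{u} → t.ord.ToType → Ordinal.{u}),
      (∀ x, b x < nu.ord) ∧ (∀ c x, f c x < b x) ∧
      ∀ c c', c < c' → c' < (succ chi).ord → ∃ x0, ∀ x, x0 ≤ x → f c x < f c' x := by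
  classical
  have hI : #t.ord.ToType = t := mk_ord_toType t
  have : Infinite t.ord.ToType := infinite_iff.2 (by rw [hI]; exact ht1.le)
  have m0 : ℵ₀ ≤ 2 ^ t := ht1.le.trans (cantor _).le
  have m1 : 2 ^ t ≤ chi := h2.le.trans hle
  have hi : ℵ₀ ≤ chi := m0.trans m1
  have hs : succ (2 ^ t) < nu := by
    refine lt_of_le_of_ne (succ_le_of_lt h2) fun e => ?_
    have := (isRegular_succ m0).cof_ord
    rw [e, hcf] at this
    exact absurd ((cantor t).trans h2) (by rw [← this]; exact lt_irrefl _)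
  obtain ⟨a, ha1, ha2⟩ : ∃ a : t.ord.ToType → Ordinal.{u}, (∀ x, a x < nu.ord) ∧
      chi < cfp a univ := by
    by_contra hc
    refine absurd hbig (not_lt.2 ?_)
    have := pow_le_of_cfp (I := t.ord.ToType) nu chi (by rw [hI, hcf])
      (by rw [hI, power_self_eq ht1.le]; exact m1) (by rw [hI]; exact m1) hi hω
      fun g hg => not_lt.1 fun h => hc ⟨g, hg, h⟩
    rwa [hI] at this
  let a' : t.ord.ToType → Ordinal.{u} := fun x =>
    if 2 ^ t < (a x).cof then a x else (succ (2 ^ t : Cardinal.{u})).ord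
  have b1 : Big a' := fun x => by
    rw [hI]
    simp only [a']
    split_ifs with h
    · exact h
    · rw [(isRegular_succ m0).cof_ord]; exact lt_succ _
  have b2 : ∀ x, a' x < nu.ord := fun x => by
    simp only [a']
    split_ifs with h
    · exact ha1 x
    · exact ord_lt_ord.2 hs
  have b3 : chi < cfp a' univ := by
    by_contra hc
    refine absurd ha2 (not_lt.2 ?_)
    rw [← union_compl_self {x | 2 ^ t < (a x).cof}]
    refine cfp_union_le_of a hi ?_ ?_
    · rw [cfp_congr (g' := a') (X := {x | 2 ^ t < (a x).cof}) fun i hi => (if_pos hi).symm]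
      exact (cfp_mono a' (subset_univ _)).trans (not_lt.1 hc)
    · refine (cfp_le_pow a _ (2 ^ t) (one_le_aleph0.trans m0) fun i hi => not_lt.1 hi).trans ?_
      refine (power_le_power_left (aleph0_pos.trans_le m0).ne' ((mk_subtype_le _).trans hI.le)).trans ?_
      rw [← power_mul, mul_eq_self ht1.le]
      exact m1
  have b4 : ∀ x, cfp a' (Iic x) < nu := fun x => by
    have c1 : #(Iic x) < t := by
      rw [← Iio_insert]
      exact mk_insert_le.trans_lt
        (add_lt_of_lt ht1.le ((mk_Iio_lt x (by simp)).trans_eq hI) (one_lt_aleph0.trans ht1))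
    have c2 : max 1 (⨆ i : Iic x, (a' i).card) < nu :=
      max_lt ((one_le_aleph0.trans m0).trans_lt h2)
        (iSup_lt_of_lt_cof_ord (by rw [hcf]; exact c1) fun i => lt_ord.1 (b2 i))
    refine (cfp_le_pow a' _ _ (le_max_left _ _) fun i hi => (cof_le_card _).trans
      (le_max_of_le_right (le_ciSup (f := fun i : Iic x => (a' i).card) bddAbove_of_small
        ⟨i, hi⟩))).trans_lt ((power_le_power_left ?_ c1.le).trans_lt (hp _ c2))
    exact (zero_lt_one.trans_le (le_max_left _ _)).ne'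
  have b5 : ∀ f : ℕ → t.ord.ToType, ∃ y, ∀ n, f n ≤ y := fun f => by
    have : (⨆ n : ULift.{u} ℕ, val (f n.down)) < t.ord :=
      iSup_lt_of_lt_cof (by rw [ht.cof_ord]; simpa using ht1) fun n => val_lt _
    obtain ⟨y, hy⟩ := exists_val this
    refine ⟨y, fun n => val_le_val.1 ?_⟩
    rw [hy]
    exact Ordinal.le_iSup (fun n : ULift.{u} ℕ => val (f n.down)) ⟨n⟩
  have : ∃ b : t.ord.ToType → Ordinal.{u}, Big b ∧ (∀ x, b x < nu.ord) ∧ ∃ c, Unb c ∧
      ∀ c' ⊆ c, Unb c' → chi < cfp b c' := by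
    by_contra hc
    refine absurd b3 (not_lt.2 ?_)
    have := b1.cfp_le nu chi.out (by rw [hI, mk_out]; exact m1) b4 b5 fun b hb hb' c hu => by
      by_contra h3
      refine hc ⟨b, hb, hb', c, hu, fun c' h4 h5 => not_le.1 fun h6 => h3 ⟨c', h4, h5, ?_⟩⟩
      rwa [mk_out]
    rwa [mk_out] at this
  obtain ⟨b, hb, hb', c, hu, hc⟩ := this
  obtain ⟨f, f1, -, -, f4⟩ := chain b c (fun i _ => hb i) (succ chi) (hi.trans (le_succ _))
    (fun _ _ => 0) fun _ i _ => hb.pos i
  choose r hr1 hr2 using hu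
  refine ⟨fun x => b (r x), fun d x => f d (r x), fun x => hb' _, fun d x => f1 d _ (hr1 x),
    fun d d' h h' => ?_⟩
  have : ¬ Unb {i | i ∈ c ∧ f d' i ≤ f d i} := fun hh =>
    absurd (hc _ (fun i hi => hi.1) hh) (not_lt.2 (le_of_lt_succ (f4 d d' h h')))
  obtain ⟨x0, hx0⟩ := not_forall.1 this
  exact ⟨x0, fun x hx => not_le.1 fun hh => hx0 ⟨r x, ⟨hr1 x, hh⟩, hx.trans (hr2 x)⟩⟩

end Pool.Agent.Lib.MP_2b97da_lc
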